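import Mathlib

set_option autoImplicit false

/-!
Cochains as functions on lists (ordered simplices).  `D` is the simplicial coboundary.
-/

namespace Pool.Agent.ZPT

open Finset

section cochains

variable {A B k : Type*} [CommRing k]

/-- The simplicial coboundary on functions of lists, `D ψ l = ∑ j, (-1) ^ j ψ (l without its j-th
entry)`. -/
def D : (List A → k) → List A → k
  | _, [] => 0
  | ψ, x :: l => ψ l - D (fun l' => ψ (x :: l')) l

@[simp] theorem D_nil (ψ : List A → k) : D ψ [] = 0 := by simp [D]

theorem D_cons (ψ : List A → k) (x : A) (l : List A) :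
    D ψ (x :: l) = ψ l - D (fun l' => ψ (x :: l')) l := by simp [D]

theorem D_map (g : A → B) (l : List A) : ∀ ψ : List B → k,
    D ψ (l.map g) = D (fun l' => ψ (l'.map g)) l := by
  induction l with
  | nil => intro ψ; simp
  | cons x l ih =>
    intro ψ
    rw [List.map_cons, D_cons, D_cons, ih]
    rfl

theorem D_sub (l : List A) : ∀ ψ φ : List A → k, D (fun l' => ψ l' - φ l') l = D ψ l - D φ l := by
  induction l with
  | nil => intro ψ φ; simp
  | cons x l ih =>
    intro ψ φ
    rw [D_cons, D_cons, D_cons, ih (fun l' => ψ (x :: l')) (fun l' => φ (x :: l'))]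
    ring

theorem D_neg (l : List A) : ∀ ψ : List A → k, D (fun l' => - ψ l') l = - D ψ l := by
  induction l with
  | nil => intro ψ; simp
  | cons x l ih =>
    intro ψ
    rw [D_cons, D_cons, ih (fun l' => ψ (x :: l'))]
    ring

theorem D_zero (l : List A) : D (fun _ => (0 : k)) l = 0 := by
  induction l with
  | nil => simp
  | cons x l ih => rw [D_cons, ih]; ring

theorem D_sum {ι : Type*} (s : Finset ι) (l : List A) : ∀ F : ι → List A → k,
    D (fun l' => ∑ i ∈ s, F i l') l = ∑ i ∈ s, D (F i) l := by
  induction l with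
  | nil => intro F; simp
  | cons x l ih =>
    intro F
    rw [D_cons, ih (fun i l' => F i (x :: l')), ← Finset.sum_sub_distrib]
    rfl

theorem D_D (l : List A) : ∀ ψ : List A → k, D (D ψ) l = 0 := by
  induction l with
  | nil => intro ψ; simp
  | cons x l ih =>
    intro ψ
    rw [D_cons]
    have h : (fun l' => D ψ (x :: l')) = fun l' => ψ l' - D (fun l'' => ψ (x :: l'')) l' := by
      funext l'
      exact D_cons ψ x l'
    rw [h, D_sub l ψ (D fun l'' => ψ (x :: l'')), ih (fun l'' => ψ (x :: l''))]
    ring

theorem D_congr (l : List A) : ∀ ψ φ : List A → k, (∀ l', l'.Sublist l → ψ l' = φ l') →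
    D ψ l = D φ l := by
  induction l with
  | nil => intro ψ φ _; simp
  | cons x l ih =>
    intro ψ φ h
    rw [D_cons, D_cons, h l (List.sublist_cons_self x l)]
    rw [ih (fun l' => ψ (x :: l')) (fun l' => φ (x :: l')) (fun l' hl => h _ (hl.cons_cons x))]

/-- Alternating functions of lists. -/
def Alt (ψ : List A → k) : Prop :=
  ∀ (u : List A) (x y : A) (v : List A),
    ψ (u ++ x :: y :: v) = - ψ (u ++ y :: x :: v) ∧ ψ (u ++ x :: x :: v) = 0

theorem Alt.cons {ψ : List A → k} (h : Alt ψ) (x : A) : Alt (fun l => ψ (x :: l)) := by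
  intro u a b v
  exact h (x :: u) a b v

theorem Alt.D {ψ : List A → k} (h : Alt ψ) : Alt (D ψ) := by
  intro u
  induction u generalizing ψ with
  | nil =>
    intro x y v
    simp only [List.nil_append]
    constructor
    · rw [D_cons, D_cons, D_cons, D_cons]
      have h1 : (fun l' => ψ (x :: y :: l')) = fun l' => - ψ (y :: x :: l') := by
        funext l'
        exact (h [] x y l').1
      rw [h1, D_neg v (fun l' => ψ (y :: x :: l'))]
      ring
    · rw [D_cons, D_cons]
      have h1 : (fun l' => ψ (x :: x :: l')) = fun l' => 0 := by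
        funext l'
        exact (h [] x x l').2
      rw [h1, D_zero]
      ring
  | cons z u ih =>
    intro x y v
    simp only [List.cons_append]
    have h1 := ih (h.cons z) x y v
    constructor
    · rw [D_cons, D_cons, (h u x y v).1, h1.1]
      ring
    · rw [D_cons, (h u x y v).2, h1.2]
      ring

theorem Alt.eq_zero {ψ : List A → k} (h : Alt ψ) (x : A) (w : List A) : ∀ (v u : List A),
    ψ (u ++ x :: (v ++ x :: w)) = 0 := by
  intro v
  induction v with
  | nil => intro u; exact (h u x x w).2
  | cons y v ih =>
    intro u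
    have h1 := (h u x y (v ++ x :: w)).1
    have h2 := ih (u ++ [y])
    simp only [List.append_assoc, List.cons_append, List.nil_append] at h2
    rw [List.cons_append, h1, h2, neg_zero]

theorem Alt.eq_zero_of_not_nodup {ψ : List A → k} (h : Alt ψ) {l : List A} (hl : ¬ l.Nodup) :
    ψ l = 0 := by
  classical
  have h1 : ∃ x, List.Duplicate x l := by
    by_contra hc
    push Not at hc
    exact hl (List.nodup_iff_forall_not_duplicate.2 hc)
  obtain ⟨x, hx⟩ := h1
  have h2 : ∃ u v w, l = u ++ x :: (v ++ x :: w) := by
    induction hx with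
    | cons_mem hm =>
      rename_i l
      obtain ⟨s, t, rfl⟩ := List.append_of_mem hm
      exact ⟨[], s, t, rfl⟩
    | cons_duplicate hd ih =>
      rename_i y l
      have h3 : ¬ l.Nodup := fun hn => (List.nodup_iff_forall_not_duplicate.1 hn x) hd
      obtain ⟨u, v, w, rfl⟩ := ih h3
      exact ⟨y :: u, v, w, rfl⟩
  obtain ⟨u, v, w, rfl⟩ := h2
  exact h.eq_zero x w v u

end cochains

end Pool.Agent.ZPT
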