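import Pool.Agent.ZPT.Cochain

set_option autoImplicit false

/-!
The universal cochains `W n` on lists of labels (`o`, sign) and their behaviour under `Z_p`.
-/

namespace Pool.Agent.ZPT

open Finset

variable {p : ℕ} [hp : Fact p.Prime]

/-- The shift of the sign. -/
def act (c : ZMod p) (a : ℕ × ZMod p) : ℕ × ZMod p := (a.1, a.2 + c)

theorem act_act (c d : ZMod p) (a : ℕ × ZMod p) : act c (act d a) = act (d + c) a := by
  simp [act, add_assoc]

theorem act_zero : (act (0 : ZMod p)) = id := by
  funext a; simp [act]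

theorem map_act_act (c d : ZMod p) (l : List (ℕ × ZMod p)) :
    (l.map (act d)).map (act c) = l.map (act (d + c)) := by
  rw [List.map_map]
  congr 1
  funext a
  exact act_act c d a

/-- Lists in which the first component determines the second. -/
def Good (l : List (ℕ × ZMod p)) : Prop := ∀ a ∈ l, ∀ b ∈ l, a.1 = b.1 → a.2 = b.2

omit hp in
theorem Good.sublist {l l' : List (ℕ × ZMod p)} (h : Good l) (hl : l'.Sublist l) : Good l' :=
  fun a ha b hb => h a (hl.subset ha) b (hl.subset hb)

theorem Good.map {l : List (ℕ × ZMod p)} (h : Good l) (c : ZMod p) : Good (l.map (act c)) := by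
  intro a ha b hb hab
  obtain ⟨a', ha', rfl⟩ := List.mem_map.1 ha
  obtain ⟨b', hb', rfl⟩ := List.mem_map.1 hb
  simp only [act] at hab ⊢
  rw [h a' ha' b' hb' hab]

open Classical in
/-- The sign of an entry with the least first component. -/
noncomputable def sgF (σ : Finset (ℕ × ZMod p)) : ZMod p :=
  if h : σ.Nonempty then (Finset.exists_min_image σ Prod.fst h).choose.2 else 0

theorem sgF_spec {σ : Finset (ℕ × ZMod p)} (h : σ.Nonempty) :
    ∃ a ∈ σ, (∀ b ∈ σ, a.1 ≤ b.1) ∧ sgF σ = a.2 := by
  have h1 := (Finset.exists_min_image σ Prod.fst h).choose_spec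
  refine ⟨_, h1.1, h1.2, ?_⟩
  rw [sgF, dif_pos h]

/-- The sign of a list. -/
noncomputable def sg (l : List (ℕ × ZMod p)) : ZMod p := sgF l.toFinset

theorem sg_act {l : List (ℕ × ZMod p)} (hl : Good l) (hn : l ≠ []) (c : ZMod p) :
    sg (l.map (act c)) = sg l + c := by
  have h1 : l.toFinset.Nonempty := by
    obtain ⟨a, ha⟩ := List.exists_mem_of_ne_nil l hn
    exact ⟨a, List.mem_toFinset.2 ha⟩
  have h2 : (l.map (act c)).toFinset.Nonempty := by
    obtain ⟨a, ha⟩ := List.exists_mem_of_ne_nil l hn
    exact ⟨act c a, List.mem_toFinset.2 (List.mem_map_of_mem ha)⟩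
  obtain ⟨a, ha, ham, hsa⟩ := sgF_spec h1
  obtain ⟨b, hb, hbm, hsb⟩ := sgF_spec h2
  rw [sg, sg, hsa, hsb]
  rw [List.mem_toFinset] at ha
  rw [List.mem_toFinset] at hb
  obtain ⟨b', hb', rfl⟩ := List.mem_map.1 hb
  have e1 : a.1 ≤ b'.1 := ham b' (List.mem_toFinset.2 hb')
  have e2 : b'.1 ≤ a.1 := hbm (act c a) (List.mem_toFinset.2 (List.mem_map_of_mem ha))
  have e3 := hl a ha b' hb' (le_antisymm e1 e2)
  simp only [act]
  rw [e3]

theorem sg_swap (u : List (ℕ × ZMod p)) (x y : ℕ × ZMod p) (v : List (ℕ × ZMod p)) (c : ZMod p) :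
    sg ((u ++ x :: y :: v).map (act c)) = sg ((u ++ y :: x :: v).map (act c)) := by
  rw [sg, sg]
  congr 1
  ext a
  simp only [List.mem_toFinset, List.mem_map, List.mem_append, List.mem_cons]
  constructor
  · rintro ⟨b, hb, rfl⟩
    exact ⟨b, by tauto, rfl⟩
  · rintro ⟨b, hb, rfl⟩
    exact ⟨b, by tauto, rfl⟩

/-- One step: from an invariant (or norm zero) cochain to a primitive. -/
noncomputable def Prim (n : ℕ) (w : List (ℕ × ZMod p) → ZMod p) (l : List (ℕ × ZMod p)) : ZMod p :=
  if Even n then ∑ i ∈ range (sg l).val, w (l.map (act (-((i : ZMod p) + 1))))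
  else if sg l = 0 then w l else 0

/-- The universal cochains. -/
noncomputable def W : ℕ → List (ℕ × ZMod p) → ZMod p
  | 0 => D fun l => if l = [] then 1 else 0
  | n + 1 => D (Prim n (W n))

theorem W_zero_single (a : ℕ × ZMod p) : W 0 [a] = 1 := by
  simp [W, D_cons]

theorem W_zero (l : List (ℕ × ZMod p)) : W 0 l = if l.length = 1 then 1 else 0 := by
  cases l with
  | nil => simp [W]
  | cons a l =>
    rw [W, D_cons]
    have h1 : (fun l' : List (ℕ × ZMod p) => if a :: l' = [] then (1 : ZMod p) else 0) =
        fun _ => 0 := by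
      funext l'
      simp
    rw [h1, D_zero]
    cases l with
    | nil => simp
    | cons b l => simp

theorem W_nil (n : ℕ) : W n ([] : List (ℕ × ZMod p)) = 0 := by
  cases n with
  | zero => simp [W]
  | succ n => simp [W]

theorem alt_W_zero : Alt (W 0 : List (ℕ × ZMod p) → ZMod p) := by
  intro u x y v
  rw [W_zero, W_zero, W_zero]
  constructor
  · rw [if_neg (by simp; omega), if_neg (by simp; omega)]
    simp
  · rw [if_neg (by simp; omega)]

theorem Alt.map {w : List (ℕ × ZMod p) → ZMod p} (h : Alt w) (c : ZMod p) :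
    Alt fun l => w (l.map (act c)) := by
  intro u x y v
  simp only [List.map_append, List.map_cons]
  exact h _ _ _ _

theorem Alt.prim {w : List (ℕ × ZMod p) → ZMod p} (h : Alt w) (n : ℕ) : Alt (Prim n w) := by
  intro u x y v
  have h0 := sg_swap u x y v 0
  simp only [act_zero, List.map_id] at h0
  constructor
  · unfold Prim
    split_ifs with h1 h2 h3 h4
    · rw [h0, ← Finset.sum_neg_distrib]
      refine Finset.sum_congr rfl fun i _ => ?_
      exact (h.map _ u x y v).1
    · exact (h u x y v).1
    · exact absurd (h0 ▸ h2) h3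
    · exact absurd (h0.trans h4) h2
    · simp
  · unfold Prim
    split_ifs with h1 h2
    · refine Finset.sum_eq_zero fun i _ => ?_
      exact (h.map _ u x y v).2
    · exact (h u x y v).2
    · rfl

theorem alt_W : ∀ n, Alt (W n : List (ℕ × ZMod p) → ZMod p)
  | 0 => alt_W_zero
  | n + 1 => ((alt_W n).prim n).D

/-- Sum over the group. -/
theorem sum_zmod (F : ZMod p → ZMod p) :
    ∑ c, F c = ∑ i ∈ range p, F (-(i : ZMod p)) := by
  have h0 : p ≠ 0 := hp.out.ne_zero
  have : NeZero p := ⟨h0⟩
  refine (Finset.sum_bij (s := range p) (t := (Finset.univ : Finset (ZMod p)))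
    (f := fun i : ℕ => F (-(i : ZMod p))) (g := F) (fun (i : ℕ) _ => -(i : ZMod p))
    (fun i _ => Finset.mem_univ _) ?_ ?_ ?_).symm
  · intro i hi j hj hij
    rw [mem_range] at hi hj
    have h1 : (i : ZMod p) = (j : ZMod p) := neg_injective hij
    rw [ZMod.natCast_eq_natCast_iff'] at h1
    rwa [Nat.mod_eq_of_lt hi, Nat.mod_eq_of_lt hj] at h1
  · intro c _
    refine ⟨(-c).val, mem_range.2 (ZMod.val_lt _), ?_⟩
    rw [ZMod.natCast_zmod_val, neg_neg]
  · intro i _
    rfl

theorem prim_even {n : ℕ} (hn : Even n) {w : List (ℕ × ZMod p) → ZMod p}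
    {l : List (ℕ × ZMod p)} (hl : Good l) (hw0 : w [] = 0)
    (hw : ∑ c, w (l.map (act c)) = 0) :
    Prim n w (l.map (act 1)) - Prim n w l = w l := by
  by_cases hne : l = []
  · subst hne
    simp [hw0]
  · have : NeZero p := ⟨hp.out.ne_zero⟩
    have h1 : ∀ i : ℕ, w ((l.map (act 1)).map (act (-((i : ZMod p) + 1)))) =
        w (l.map (act (-(i : ZMod p)))) := by
      intro i
      rw [map_act_act]
      congr 3
      ring
    unfold Prim
    rw [if_pos hn, if_pos hn, sg_act hl hne, Finset.sum_congr rfl fun i _ => h1 i]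
    have hv : (sg l).val < p := ZMod.val_lt _
    by_cases hs : (sg l).val + 1 < p
    · have h2 : (sg l + 1).val = (sg l).val + 1 := by
        rw [ZMod.val_add, ZMod.val_one'' (by omega), Nat.mod_eq_of_lt hs]
      rw [h2, Finset.sum_range_succ']
      simp only [Nat.cast_zero, neg_zero, act_zero, List.map_id]
      push_cast
      ring
    · have h3 : (sg l).val + 1 = p := by omega
      have h2 : sg l + 1 = 0 := by
        have h4 : ((((sg l).val + 1 : ℕ)) : ZMod p) = 0 := by rw [h3]; simp
        rw [Nat.cast_add, ZMod.natCast_zmod_val, Nat.cast_one] at h4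
        exact h4
      rw [h2, ZMod.val_zero]
      rw [sum_zmod] at hw
      have hr : range p = range ((sg l).val + 1) := by rw [h3]
      rw [hr, Finset.sum_range_succ'] at hw
      simp only [Nat.cast_zero, neg_zero, act_zero, List.map_id] at hw
      push_cast at hw
      rw [Finset.range_zero, Finset.sum_empty]
      linear_combination -hw

theorem prim_odd {n : ℕ} (hn : ¬ Even n) {w : List (ℕ × ZMod p) → ZMod p}
    {l : List (ℕ × ZMod p)} (hl : Good l) (hw0 : w [] = 0)
    (hw : ∀ c, w (l.map (act c)) = w l) :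
    ∑ c, Prim n w (l.map (act c)) = w l := by
  by_cases hne : l = []
  · subst hne
    simp [hw0, Prim, hn]
  · unfold Prim
    simp only [if_neg hn]
    have h1 : ∀ c : ZMod p, (if sg (l.map (act c)) = 0 then w (l.map (act c)) else 0) =
        if c = - sg l then w l else 0 := by
      intro c
      rw [sg_act hl hne, hw c]
      congr 1
      rw [eq_iff_iff]
      constructor
      · intro h
        linear_combination h
      · rintro rfl
        ring
    rw [Finset.sum_congr rfl fun c _ => h1 c, Finset.sum_ite_eq']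
    simp

theorem const_of_step {F : ZMod p → ZMod p} (h : ∀ c, F (c + 1) = F c) (c : ZMod p) :
    F c = F 0 := by
  have : NeZero p := ⟨hp.out.ne_zero⟩
  have h1 : ∀ i : ℕ, F (i : ZMod p) = F 0 := by
    intro i
    induction i with
    | zero => simp
    | succ i ih => rw [Nat.cast_succ, h, ih]
  rw [← ZMod.natCast_zmod_val c]
  exact h1 _

/-- The invariance properties of `W n` on good lists. -/
theorem W_inv : ∀ n : ℕ, (Even n → ∀ l : List (ℕ × ZMod p), Good l → ∑ c, W n (l.map (act c)) = 0) ∧
    (¬ Even n → ∀ l : List (ℕ × ZMod p), Good l → ∀ c, W n (l.map (act c)) = W n l) := by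
  intro n
  induction n with
  | zero =>
    refine ⟨fun _ l _ => ?_, fun h => absurd (by simp) h⟩
    simp only [W_zero, List.length_map, Finset.sum_const, Finset.card_univ, ZMod.card, nsmul_eq_mul]
    simp
  | succ n ih =>
    have hDW : ∀ l : List (ℕ × ZMod p), D (W n) l = 0 := by
      intro l
      cases n with
      | zero => exact D_D l _
      | succ n => exact D_D l _
    constructor
    · intro hn l hl
      have hn' : ¬ Even n := by
        intro h
        exact absurd hn (by rw [Nat.even_add_one]; simpa using h)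
      have h1 : ∀ c : ZMod p, W (n + 1) (l.map (act c)) =
          D (fun l' => Prim n (W n) (l'.map (act c))) l := fun c => D_map _ _ _
      rw [Finset.sum_congr rfl fun c _ => h1 c, ← D_sum]
      rw [← hDW l]
      refine D_congr l _ _ fun l' hl' => ?_
      exact prim_odd hn' (hl.sublist hl') (W_nil n) (ih.2 hn' l' (hl.sublist hl'))
    · intro hn l hl c
      have hn' : Even n := by
        by_contra h
        exact hn (Nat.even_add_one.2 h)
      have key : ∀ l' : List (ℕ × ZMod p), Good l' → W (n + 1) (l'.map (act 1)) = W (n + 1) l' := by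
        intro l' hl'
        have h1 : W (n + 1) (l'.map (act 1)) - W (n + 1) l' = 0 := by
          have h2 : W (n + 1) (l'.map (act 1)) =
              D (fun l'' => Prim n (W n) (l''.map (act 1))) l' := D_map _ _ _
          have h3 : W (n + 1) l' = D (Prim n (W n)) l' := rfl
          rw [h2, h3, ← D_sub, ← hDW l']
          refine D_congr l' _ _ fun l'' hl'' => ?_
          exact prim_even hn' (hl'.sublist hl'') (W_nil n) (ih.1 hn' l'' (hl'.sublist hl''))
        exact sub_eq_zero.1 h1
      have h5 := const_of_step (F := fun c => W (n + 1) (l.map (act c))) (fun c => by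
        have := key (l.map (act c)) (hl.map c)
        rw [map_act_act] at this
        exact this) c
      simp only [act_zero, List.map_id] at h5
      exact h5

end Pool.Agent.ZPT
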