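import Pool.Agent.ZPT.Tucker

set_option autoImplicit false

/-!
The Tucker lemma for labellings of the vectors all of whose sectors have at least `B` coordinates.
-/

namespace Pool.Agent.ZPT

open Finset

variable {p : ℕ} [hp : Fact p.Prime]

/-- The number of the coordinates below `N` in the sector `k`. -/
def sec (N : ℕ) (X : PV p) (k : ZMod p) : ℕ := ((range N).filter fun j => X j = some k).card

/-- All the sectors have at least `B` coordinates. -/
def Large (N B : ℕ) (X : PV p) : Prop := ∀ k, B ≤ sec N X k

theorem shf_eq_some {X : PV p} {c k : ZMod p} {j : ℕ} : shf c X j = some k ↔ X j = some (k - c) := by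
  simp only [shf]
  cases X j with
  | none => simp
  | some a =>
    simp only [Option.map_some, Option.some.injEq]
    constructor
    · intro h; rw [← h]; ring
    · intro h; rw [h]; ring

theorem sec_shf (N : ℕ) (X : PV p) (c k : ZMod p) : sec N (shf c X) k = sec N X (k - c) := by
  unfold sec
  congr 1
  ext j
  simp only [mem_filter, shf_eq_some]

theorem Large.shf {N B : ℕ} {X : PV p} (h : Large N B X) (c : ZMod p) : Large N B (shf c X) := by
  intro k
  rw [sec_shf]
  exact h _

theorem Large_shf {N B : ℕ} {X : PV p} (c : ZMod p) : Large N B (shf c X) ↔ Large N B X := by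
  constructor
  · intro h k
    have := h (k + c)
    rwa [sec_shf, add_sub_cancel_right] at this
  · exact fun h => h.shf c

omit hp in
theorem sec_mono {N : ℕ} {X Y : PV p} (h : Le X Y) (k : ZMod p) : sec N X k ≤ sec N Y k := by
  unfold sec
  apply Finset.card_le_card
  intro j hj
  rw [mem_filter] at hj ⊢
  refine ⟨hj.1, ?_⟩
  rw [h j (by rw [hj.2]; simp)]
  exact hj.2

/-- The truncated sizes. -/
def tv (N B : ℕ) (X : PV p) (k : ZMod p) : ℕ := min (sec N X k) B

/-- The indices of the smallest sectors. -/
def UU (N B : ℕ) (X : PV p) : Finset (ZMod p) :=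
  haveI : NeZero p := ⟨hp.out.ne_zero⟩
  Finset.univ.filter fun k => ∀ k', tv N B X k ≤ tv N B X k'

theorem mem_UU {N B : ℕ} {X : PV p} {k : ZMod p} :
    k ∈ UU N B X ↔ ∀ k', tv N B X k ≤ tv N B X k' := by
  simp [UU]

theorem UU_shf (N B : ℕ) (X : PV p) (c : ZMod p) :
    UU N B (shf c X) = (UU N B X).map (Equiv.addRight c).toEmbedding := by
  ext k
  rw [mem_UU, Finset.mem_map_equiv, mem_UU]
  have h1 : ∀ k, tv N B (shf c X) k = tv N B X (k - c) := by
    intro k
    rw [tv, tv, sec_shf]
  simp only [h1, Equiv.addRight_symm, Equiv.coe_addRight]
  constructor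
  · intro h k'
    have := h (k' + c)
    rw [add_sub_cancel_right] at this
    rw [← sub_eq_add_neg]
    exact this
  · intro h k'
    rw [sub_eq_add_neg k c]
    exact h _

theorem UU_nonempty (N B : ℕ) (X : PV p) : (UU N B X).Nonempty := by
  have : NeZero p := ⟨hp.out.ne_zero⟩
  obtain ⟨k, _, hk⟩ := Finset.exists_min_image (Finset.univ : Finset (ZMod p)) (tv N B X) ⟨0, mem_univ _⟩
  exact ⟨k, mem_UU.2 fun k' => hk k' (mem_univ _)⟩

/-- The average. -/
noncomputable def avg (U : Finset (ZMod p)) : ZMod p := (∑ k ∈ U, k) * (U.card : ZMod p)⁻¹

theorem avg_shift {U : Finset (ZMod p)} (hne : U.Nonempty) (hlt : U.card < p) (c : ZMod p) :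
    avg (U.map (Equiv.addRight c).toEmbedding) = avg U + c := by
  unfold avg
  rw [Finset.sum_map, Finset.card_map]
  simp only [Equiv.coe_toEmbedding, Equiv.coe_addRight]
  rw [Finset.sum_add_distrib, Finset.sum_const, nsmul_eq_mul, add_mul]
  congr 1
  have h1 : (U.card : ZMod p) ≠ 0 := by
    intro h
    rw [ZMod.natCast_eq_zero_iff] at h
    exact absurd (Nat.le_of_dvd hne.card_pos h) (by omega)
  field_simp

open Classical in
/-- The first value. -/
noncomputable def fv (X : PV p) : ZMod p :=
  if h : ∃ j, X j ≠ none then (X (Nat.find h)).getD 0 else 0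

theorem fv_shf {X : PV p} (hX : X ≠ fun _ => none) (c : ZMod p) : fv (shf c X) = fv X + c := by
  classical
  have h : ∃ j, X j ≠ none := by
    by_contra hc
    push Not at hc
    exact hX (funext hc)
  have h' : ∃ j, shf c X j ≠ none := by
    obtain ⟨j, hj⟩ := h
    refine ⟨j, ?_⟩
    simpa [shf] using hj
  rw [fv, dif_pos h', fv, dif_pos h]
  have hf : Nat.find h' = Nat.find h := by
    congr 1
    funext j
    simp [shf]
  rw [hf]
  have h3 := Nat.find_spec h
  simp only [shf]
  cases hj : X (Nat.find h) with
  | none => exact absurd hj h3
  | some a => simp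

open Classical in
/-- The index. -/
noncomputable def kk (label : PV p → ℕ) (X : PV p) : ZMod p :=
  haveI : NeZero p := ⟨hp.out.ne_zero⟩
  (Finset.exists_min_image (Finset.univ : Finset (ZMod p)) (fun k => label (shf k X))
    ⟨0, mem_univ _⟩).choose

theorem kk_spec (label : PV p → ℕ) (X : PV p) (k : ZMod p) :
    label (shf (kk label X) X) ≤ label (shf k X) := by
  have : NeZero p := ⟨hp.out.ne_zero⟩
  exact (Finset.exists_min_image (Finset.univ : Finset (ZMod p)) (fun k => label (shf k X))
    ⟨0, mem_univ _⟩).choose_spec.2 k (mem_univ _)

open Classical in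
/-- The labels. -/
noncomputable def oo (N B : ℕ) (label : PV p → ℕ) (X : PV p) : ℕ :=
  haveI : NeZero p := ⟨hp.out.ne_zero⟩
  if Large N B X then p * B + label (shf (kk label X) X) else ∑ k, tv N B X k

open Classical in
/-- The signs. -/
noncomputable def ss (N B : ℕ) (label : PV p → ℕ) (X : PV p) : ZMod p :=
  haveI : NeZero p := ⟨hp.out.ne_zero⟩
  if Large N B X then - kk label X else if UU N B X = Finset.univ then fv X else avg (UU N B X)

theorem sum_tv_lt {N B : ℕ} {X : PV p} (h : ¬ Large N B X) : ∑ k, tv N B X k < p * B := by
  have : NeZero p := ⟨hp.out.ne_zero⟩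
  have h1 : ∃ k, sec N X k < B := by
    by_contra hc
    push Not at hc
    exact h hc
  obtain ⟨k, hk⟩ := h1
  have h2 : ∑ k : ZMod p, tv N B X k < ∑ _k : ZMod p, B := by
    apply Finset.sum_lt_sum
    · intro i _
      exact min_le_right _ _
    · exact ⟨k, mem_univ _, lt_of_le_of_lt (min_le_left _ _) hk⟩
  rwa [Finset.sum_const, Finset.card_univ, ZMod.card, smul_eq_mul] at h2

theorem tucker_large {N B M : ℕ} (label : PV p → ℕ) (hM : ∀ X, label X < M)
    (hl : ∀ X Y : PV p, (∀ j, N ≤ j → Y j = none) → Large N B X → Le X Y → ∀ t, t ≠ 0 →
      label Y ≠ label (shf t X)) : N ≤ p * B + M := by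
  classical
  have hNZ : NeZero p := ⟨hp.out.ne_zero⟩
  have supp_shf : ∀ (X : PV p) (c : ZMod p), (∀ j, N ≤ j → X j = none) →
      ∀ j, N ≤ j → shf c X j = none := by
    intro X c h j hj
    simp [shf, h j hj]
  -- the indices are distinct
  have hinj : ∀ X : PV p, (∀ j, N ≤ j → X j = none) → Large N B X → ∀ a b,
      label (shf a X) = label (shf b X) → a = b := by
    intro X hX hL a b hab
    by_contra hne
    refine hl (shf a X) (shf a X) (supp_shf X a hX) (hL.shf a) (Le.refl _) (b - a)
      (sub_ne_zero.2 (Ne.symm hne)) ?_
    rw [shf_shf, add_sub_cancel]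
    exact hab
  refine tucker (oo N B label) (ss N B label) ?_ ?_ ?_
  · intro X _ _
    unfold oo
    split_ifs with h
    · have := hM (shf (kk label X) X)
      omega
    · have := sum_tv_lt h
      omega
  · intro X hX0 hX c
    by_cases h : Large N B X
    · have h' : Large N B (shf c X) := h.shf c
      have h1 := kk_spec label (shf c X)
      have h2 := kk_spec label X
      have e1 : label (shf (kk label (shf c X)) (shf c X)) = label (shf (kk label X) X) := by
        apply le_antisymm
        · have := h1 (kk label X - c)
          rwa [shf_shf (kk label X - c) c, add_sub_cancel] at this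
        · rw [shf_shf]
          exact h2 _
      constructor
      · rw [oo, oo, if_pos h', if_pos h, e1]
      · rw [ss, ss, if_pos h', if_pos h]
        rw [shf_shf] at e1
        have e2 := hinj X hX h _ _ e1
        linear_combination -e2
    · have h' : ¬ Large N B (shf c X) := fun hc => h ((Large_shf c).1 hc)
      constructor
      · rw [oo, oo, if_neg h', if_neg h]
        refine Fintype.sum_equiv (Equiv.subRight c) _ _ fun k => ?_
        rw [tv, tv, sec_shf]
        rfl
      · rw [ss, ss, if_neg h', if_neg h, UU_shf]
        by_cases hU : UU N B X = univ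
        · rw [if_pos (by rw [hU]; exact Finset.map_univ_equiv _), if_pos hU]
          exact fv_shf hX0 c
        · have hU' : ¬ (UU N B X).map (Equiv.addRight c).toEmbedding = univ := by
            intro hc
            apply hU
            rw [← Finset.card_eq_iff_eq_univ] at hc ⊢
            rwa [Finset.card_map] at hc
          rw [if_neg hU', if_neg hU]
          apply avg_shift (UU_nonempty N B X)
          have h3 : (UU N B X).card ≠ Fintype.card (ZMod p) := by
            rwa [Ne, Finset.card_eq_iff_eq_univ]
          have h4 := Finset.card_le_univ (UU N B X)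
          rw [ZMod.card] at h3 h4
          omega
  · intro X Y hX0 hY hXY ho
    have hX : ∀ j, N ≤ j → X j = none := by
      intro j hj
      by_contra hc
      have := hXY j hc
      rw [hY j hj] at this
      exact hc this.symm
    by_cases hLX : Large N B X
    · have hLY : Large N B Y := fun k => (hLX k).trans (sec_mono hXY k)
      rw [oo, oo, if_pos hLX, if_pos hLY] at ho
      have e1 : label (shf (kk label X) X) = label (shf (kk label Y) Y) := by omega
      rw [ss, ss, if_pos hLX, if_pos hLY]
      congr 1
      by_contra hne
      refine hl (shf (kk label Y) X) (shf (kk label Y) Y) (supp_shf Y _ hY) (hLX.shf _)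
        (hXY.shf _) (kk label X - kk label Y) (sub_ne_zero.2 hne) ?_
      rw [shf_shf, add_sub_cancel]
      exact e1.symm
    · by_cases hLY : Large N B Y
      · rw [oo, oo, if_neg hLX, if_pos hLY] at ho
        have := sum_tv_lt hLX
        omega
      · rw [oo, oo, if_neg hLX, if_neg hLY] at ho
        have hle : ∀ k, tv N B X k ≤ tv N B Y k := fun k =>
          min_le_min (sec_mono hXY k) (le_refl _)
        have heq : ∀ k, tv N B X k = tv N B Y k := by
          intro k
          exact (Finset.sum_eq_sum_iff_of_le fun i _ => hle i).1 ho k (mem_univ k)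
        have hU : UU N B X = UU N B Y := by
          ext k
          rw [mem_UU, mem_UU]
          simp only [heq]
        rw [ss, ss, if_neg hLX, if_neg hLY, ← hU]
        split_ifs with hc
        · -- all the sectors have the same size, less than `B`
          have hex : ∃ k, sec N Y k < B := by
            by_contra hcon
            push Not at hcon
            exact hLY hcon
          obtain ⟨k0, hk0⟩ := hex
          have hall : ∀ k, tv N B Y k = tv N B Y k0 := by
            intro k
            apply le_antisymm
            · exact (mem_UU.1 (by rw [← hU, hc]; exact mem_univ k) k0)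
            · exact (mem_UU.1 (by rw [← hU, hc]; exact mem_univ k0) k)
          have hY1 : ∀ k, sec N Y k < B := by
            intro k
            have h1 := hall k
            have h2 : tv N B Y k0 < B := lt_of_le_of_lt (min_le_left _ _) hk0
            by_contra hcon
            push Not at hcon
            rw [tv, min_eq_right hcon] at h1
            omega
          have hsec : ∀ k, sec N X k = sec N Y k := by
            intro k
            have h1 := heq k
            have h2 := hY1 k
            have h3 := sec_mono (N := N) hXY k
            rw [tv, tv, min_eq_left (by omega), min_eq_left (by omega)] at h1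
            exact h1
          have hXYeq : X = Y := by
            funext j
            by_cases hj : j < N
            · cases hYj : Y j with
              | none =>
                by_contra hcon
                have := hXY j hcon
                rw [hYj] at this
                exact hcon this.symm
              | some k =>
                have hsub : ((range N).filter fun j => X j = some k) ⊆
                    ((range N).filter fun j => Y j = some k) := by
                  intro i hi
                  rw [mem_filter] at hi ⊢
                  refine ⟨hi.1, ?_⟩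
                  rw [hXY i (by rw [hi.2]; simp)]
                  exact hi.2
                have h5 := Finset.eq_of_subset_of_card_le hsub (le_of_eq (hsec k).symm)
                have h6 : j ∈ ((range N).filter fun j => Y j = some k) :=
                  mem_filter.2 ⟨mem_range.2 hj, hYj⟩
                rw [← h5, mem_filter] at h6
                exact h6.2
            · rw [hX j (by omega), hY j (by omega)]
          rw [hXYeq]
        · rfl

end Pool.Agent.ZPT
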