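import Pool.Agent.ZPT.Label

set_option autoImplicit false

/-!
The `Z_p`-Tucker lemma on a finite set of coordinates, and its version for several blocks.
-/

namespace Pool.Agent.ZPT

open Finset

variable {p : ℕ} [hp : Fact p.Prime]

section fin

variable {I : Type*}

/-- The action. -/
def shI (c : ZMod p) (X : I → Option (ZMod p)) : I → Option (ZMod p) := fun j => (X j).map (· + c)

/-- Extension. -/
def LeI (X Y : I → Option (ZMod p)) : Prop := ∀ j, X j ≠ none → Y j = X j

theorem shI_shI (c d : ZMod p) (X : I → Option (ZMod p)) : shI c (shI d X) = shI (d + c) X := by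
  funext j
  simp only [shI]
  cases X j with
  | none => rfl
  | some a => simp [add_assoc]

omit hp in
theorem LeI.refl (X : I → Option (ZMod p)) : LeI X X := fun _ _ => rfl

theorem LeI.shI {X Y : I → Option (ZMod p)} (h : LeI X Y) (c : ZMod p) :
    LeI (shI c X) (shI c Y) := by
  intro j hj
  have h1 : X j ≠ none := by
    intro h2
    apply hj
    simp [ZPT.shI, h2]
  simp only [ZPT.shI]
  rw [h j h1]

theorem shI_eq_some {X : I → Option (ZMod p)} {c k : ZMod p} {j : I} :
    shI c X j = some k ↔ X j = some (k - c) := by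
  simp only [shI]
  cases X j with
  | none => simp
  | some a =>
    simp only [Option.map_some, Option.some.injEq]
    constructor
    · intro h; rw [← h]; ring
    · intro h; rw [h]; ring

/-- **The `Z_p`-Tucker lemma** on a finite set of coordinates. -/
theorem tucker_fin [Fintype I] {m : ℕ} (o : (I → Option (ZMod p)) → ℕ)
    (s : (I → Option (ZMod p)) → ZMod p)
    (ho : ∀ X, X ≠ (fun _ => none) → o X < m)
    (hoc : ∀ X, X ≠ (fun _ => none) → ∀ c, o (shI c X) = o X ∧ s (shI c X) = s X + c)
    (hs : ∀ X Y, X ≠ (fun _ => none) → LeI X Y → o X = o Y → s X = s Y) : Fintype.card I ≤ m := by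
  set e := Fintype.equivFin I with he
  set π : PV p → (I → Option (ZMod p)) := fun X i => X (e i) with hπ
  have hne : ∀ X : PV p, X ≠ (fun _ => none) → (∀ j, Fintype.card I ≤ j → X j = none) →
      π X ≠ fun _ => none := by
    intro X hX h hc
    apply hX
    funext j
    by_cases hj : j < Fintype.card I
    · have := congrFun hc (e.symm ⟨j, hj⟩)
      simp only [hπ, Equiv.apply_symm_apply] at this
      exact this
    · exact h j (by omega)
  refine tucker (fun X => o (π X)) (fun X => s (π X)) ?_ ?_ ?_
  · intro X hX h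
    exact ho _ (hne X hX h)
  · intro X hX h c
    exact hoc _ (hne X hX h) c
  · intro X Y hX hY hXY hoXY
    have hX' : ∀ j, Fintype.card I ≤ j → X j = none := by
      intro j hj
      by_contra hc
      have := hXY j hc
      rw [hY j hj] at this
      exact hc this.symm
    exact hs _ _ (hne X hX hX') (fun j hj => hXY _ hj) hoXY

end fin

section blocks

variable {J : Type*} {N : J → ℕ}

/-- The coordinates: `N β` of them in the block `β`. -/
abbrev Co (N : J → ℕ) := Σ β : J, Fin (N β)

/-- The number of the coordinates of the block `β` in the sector `k`. -/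
def secB (X : Co N → Option (ZMod p)) (β : J) (k : ZMod p) : ℕ :=
  ((Finset.univ : Finset (Fin (N β))).filter fun x => X ⟨β, x⟩ = some k).card

/-- The number of the coordinates of the block `β` in the support. -/
def supB (X : Co N → Option (ZMod p)) (β : J) : ℕ :=
  ((Finset.univ : Finset (Fin (N β))).filter fun x => X ⟨β, x⟩ ≠ none).card

/-- The block is large. -/
def LargeB (B : J → ℕ) (X : Co N → Option (ZMod p)) (β : J) : Prop := ∀ k, B β ≤ secB X β k

theorem secB_shI (X : Co N → Option (ZMod p)) (β : J) (c k : ZMod p) :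
    secB (shI c X) β k = secB X β (k - c) := by
  unfold secB
  congr 1
  ext j
  simp only [mem_filter, shI_eq_some]

theorem supB_shI (X : Co N → Option (ZMod p)) (β : J) (c : ZMod p) :
    supB (shI c X) β = supB X β := by
  unfold supB
  congr 1
  ext j
  simp [shI]

theorem LargeB_shI {B : J → ℕ} {X : Co N → Option (ZMod p)} {β : J} (c : ZMod p) :
    LargeB B (shI c X) β ↔ LargeB B X β := by
  constructor
  · intro h k
    have := h (k + c)
    rwa [secB_shI, add_sub_cancel_right] at this
  · intro h k
    rw [secB_shI]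
    exact h _

omit hp in
theorem secB_mono {X Y : Co N → Option (ZMod p)} (h : LeI X Y) (β : J) (k : ZMod p) :
    secB X β k ≤ secB Y β k := by
  unfold secB
  apply Finset.card_le_card
  intro j hj
  rw [mem_filter] at hj ⊢
  refine ⟨hj.1, ?_⟩
  rw [h _ (by rw [hj.2]; simp)]
  exact hj.2

omit hp in
theorem supB_mono {X Y : Co N → Option (ZMod p)} (h : LeI X Y) (β : J) : supB X β ≤ supB Y β := by
  unfold supB
  apply Finset.card_le_card
  intro j hj
  rw [mem_filter] at hj ⊢
  refine ⟨hj.1, ?_⟩
  rw [h _ hj.2]
  exact hj.2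

theorem sum_secB (X : Co N → Option (ZMod p)) (β : J) : 
    haveI : NeZero p := ⟨hp.out.ne_zero⟩
    ∑ k, secB X β k = supB X β := by
  have : NeZero p := ⟨hp.out.ne_zero⟩
  unfold secB supB
  rw [← Finset.card_biUnion]
  · congr 1
    ext x
    simp only [mem_biUnion, mem_filter, mem_univ, true_and]
    cases X ⟨β, x⟩ with
    | none => simp
    | some a => simp
  · intro k _ k' _ hkk
    rw [Function.onFun, Finset.disjoint_left]
    intro x hx hx'
    rw [mem_filter] at hx hx'
    rw [hx.2] at hx'
    exact hkk (Option.some.inj hx'.2)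

omit hp in
theorem supB_le (X : Co N → Option (ZMod p)) (β : J) : supB X β ≤ N β := by
  unfold supB
  exact (Finset.card_le_univ _).trans (by simp)

/-- The truncated sizes. -/
def tvB (B : J → ℕ) (X : Co N → Option (ZMod p)) (β : J) (k : ZMod p) : ℕ := min (secB X β k) (B β)

/-- The indices of the smallest sectors. -/
def UB (B : J → ℕ) (X : Co N → Option (ZMod p)) (β : J) : Finset (ZMod p) :=
  haveI : NeZero p := ⟨hp.out.ne_zero⟩
  Finset.univ.filter fun k => ∀ k', tvB B X β k ≤ tvB B X β k'

theorem mem_UB {B : J → ℕ} {X : Co N → Option (ZMod p)} {β : J} {k : ZMod p} :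
    k ∈ UB B X β ↔ ∀ k', tvB B X β k ≤ tvB B X β k' := by
  simp [UB]

theorem UB_shI (B : J → ℕ) (X : Co N → Option (ZMod p)) (β : J) (c : ZMod p) :
    UB B (shI c X) β = (UB B X β).map (Equiv.addRight c).toEmbedding := by
  ext k
  rw [mem_UB, Finset.mem_map_equiv, mem_UB]
  have h1 : ∀ k, tvB B (shI c X) β k = tvB B X β (k - c) := by
    intro k
    rw [tvB, tvB, secB_shI]
  simp only [h1, Equiv.addRight_symm, Equiv.coe_addRight]
  constructor
  · intro h k'
    have := h (k' + c)
    rw [add_sub_cancel_right] at this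
    rw [← sub_eq_add_neg]
    exact this
  · intro h k'
    rw [sub_eq_add_neg k c]
    exact h _

theorem UB_nonempty (B : J → ℕ) (X : Co N → Option (ZMod p)) (β : J) : (UB B X β).Nonempty := by
  have : NeZero p := ⟨hp.out.ne_zero⟩
  obtain ⟨k, _, hk⟩ := Finset.exists_min_image (Finset.univ : Finset (ZMod p)) (tvB B X β)
    ⟨0, mem_univ _⟩
  exact ⟨k, mem_UB.2 fun k' => hk k' (mem_univ _)⟩

theorem UB_univ_shI (B : J → ℕ) (X : Co N → Option (ZMod p)) (β : J) (c : ZMod p) :
    (haveI : NeZero p := ⟨hp.out.ne_zero⟩; UB B (shI c X) β = Finset.univ) ↔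
    (haveI : NeZero p := ⟨hp.out.ne_zero⟩; UB B X β = Finset.univ) := by
  have : NeZero p := ⟨hp.out.ne_zero⟩
  rw [← Finset.card_eq_iff_eq_univ, ← Finset.card_eq_iff_eq_univ, UB_shI, Finset.card_map]

theorem avg_UB_shI {B : J → ℕ} {X : Co N → Option (ZMod p)} {β : J}
    (h : ¬ (haveI : NeZero p := ⟨hp.out.ne_zero⟩; UB B X β = Finset.univ)) (c : ZMod p) :
    avg (UB B (shI c X) β) = avg (UB B X β) + c := by
  have : NeZero p := ⟨hp.out.ne_zero⟩
  rw [UB_shI]
  apply avg_shift (UB_nonempty B X β)
  have h3 : (UB B X β).card ≠ Fintype.card (ZMod p) := by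
    rwa [Ne, Finset.card_eq_iff_eq_univ]
  have h4 := Finset.card_le_univ (UB B X β)
  rw [ZMod.card] at h3 h4
  omega

/-- The part of the block in the index. -/
noncomputable def oB (B : J → ℕ) (X : Co N → Option (ZMod p)) (β : J) : ℕ :=
  haveI : NeZero p := ⟨hp.out.ne_zero⟩
  haveI := Classical.propDecidable (LargeB B X β)
  if LargeB B X β then supB X β else ∑ k, tvB B X β k

theorem sum_tvB_le (B : J → ℕ) (X : Co N → Option (ZMod p)) (β : J) :
    haveI : NeZero p := ⟨hp.out.ne_zero⟩
    ∑ k, tvB B X β k ≤ supB X β := by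
  have : NeZero p := ⟨hp.out.ne_zero⟩
  rw [← sum_secB]
  exact Finset.sum_le_sum fun k _ => min_le_left _ _

theorem oB_le (B : J → ℕ) (X : Co N → Option (ZMod p)) (β : J) : oB B X β ≤ N β := by
  unfold oB
  split_ifs
  · exact supB_le X β
  · exact (sum_tvB_le B X β).trans (supB_le X β)

theorem oB_lt {B : J → ℕ} {X : Co N → Option (ZMod p)} {β : J} (h : ¬ LargeB B X β) :
    oB B X β < p * B β := by
  have : NeZero p := ⟨hp.out.ne_zero⟩
  rw [oB, if_neg h]
  have h1 : ∃ k, secB X β k < B β := by
    by_contra hc
    push Not at hc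
    exact h hc
  obtain ⟨k, hk⟩ := h1
  have h2 : ∑ k : ZMod p, tvB B X β k < ∑ _k : ZMod p, B β := by
    apply Finset.sum_lt_sum
    · intro i _
      exact min_le_right _ _
    · exact ⟨k, mem_univ _, lt_of_le_of_lt (min_le_left _ _) hk⟩
  rwa [Finset.sum_const, Finset.card_univ, ZMod.card, smul_eq_mul] at h2

theorem oB_shI (B : J → ℕ) (X : Co N → Option (ZMod p)) (β : J) (c : ZMod p) :
    oB B (shI c X) β = oB B X β := by
  have : NeZero p := ⟨hp.out.ne_zero⟩
  by_cases h : LargeB B X β
  · rw [oB, oB, if_pos h, if_pos ((LargeB_shI c).2 h), supB_shI]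
  · rw [oB, oB, if_neg h, if_neg fun hc => h ((LargeB_shI c).1 hc)]
    refine Fintype.sum_equiv (Equiv.subRight c) _ _ fun k => ?_
    rw [tvB, tvB, secB_shI]
    rfl

theorem pB_le_supB {B : J → ℕ} {X : Co N → Option (ZMod p)} {β : J} (h : LargeB B X β) :
    p * B β ≤ supB X β := by
  have : NeZero p := ⟨hp.out.ne_zero⟩
  rw [← sum_secB]
  calc p * B β = ∑ _k : ZMod p, B β := by
        rw [Finset.sum_const, Finset.card_univ, ZMod.card, smul_eq_mul]
    _ ≤ _ := Finset.sum_le_sum fun k _ => h k

theorem oB_mono (B : J → ℕ) {X Y : Co N → Option (ZMod p)} (hXY : LeI X Y) (β : J) :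
    oB B X β ≤ oB B Y β := by
  have : NeZero p := ⟨hp.out.ne_zero⟩
  by_cases hY : LargeB B Y β
  · by_cases hX : LargeB B X β
    · rw [oB, oB, if_pos hX, if_pos hY]
      exact supB_mono hXY β
    · have h1 := oB_lt hX
      have h2 := pB_le_supB hY
      rw [oB, oB, if_neg hX, if_pos hY] at *
      omega
  · have hX : ¬ LargeB B X β := fun h => hY fun k => (h k).trans (secB_mono hXY β k)
    rw [oB, oB, if_neg hX, if_neg hY]
    exact Finset.sum_le_sum fun k _ => min_le_min (secB_mono hXY β k) (le_refl _)

/-- Equal indices in one block: the block is large for both or for none, the truncated sizes agree,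
and the vectors agree on the block if it is large or balanced. -/
theorem oB_eq {B : J → ℕ} {X Y : Co N → Option (ZMod p)} (hXY : LeI X Y) {β : J}
    (h : oB B X β = oB B Y β) :
    (LargeB B X β ↔ LargeB B Y β) ∧ UB B X β = UB B Y β ∧
      ((LargeB B X β ∨ (haveI : NeZero p := ⟨hp.out.ne_zero⟩; UB B X β = Finset.univ)) →
        ∀ x, X ⟨β, x⟩ = Y ⟨β, x⟩) := by
  have : NeZero p := ⟨hp.out.ne_zero⟩
  have hiff : LargeB B X β ↔ LargeB B Y β := by
    constructor
    · exact fun h k => (h k).trans (secB_mono hXY β k)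
    · intro hY
      by_contra hX
      have h1 := oB_lt hX
      have h2 := pB_le_supB hY
      rw [h, oB, if_pos hY] at h1
      omega
  have heqs : supB X β = supB Y β → ∀ x, X ⟨β, x⟩ = Y ⟨β, x⟩ := by
    intro hs x
    cases hX : X ⟨β, x⟩ with
    | some a =>
      have := hXY ⟨β, x⟩ (by rw [hX]; simp)
      rw [this, hX]
    | none =>
      by_contra hc
      have hsub : ((Finset.univ : Finset (Fin (N β))).filter fun x => X ⟨β, x⟩ ≠ none) ⊆
          ((Finset.univ : Finset (Fin (N β))).filter fun x => Y ⟨β, x⟩ ≠ none) := by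
        intro i hi
        rw [mem_filter] at hi ⊢
        refine ⟨hi.1, ?_⟩
        rw [hXY _ hi.2]
        exact hi.2
      have h5 := Finset.eq_of_subset_of_card_le hsub (le_of_eq hs.symm)
      have h6 : x ∈ ((Finset.univ : Finset (Fin (N β))).filter fun x => Y ⟨β, x⟩ ≠ none) :=
        mem_filter.2 ⟨mem_univ _, Ne.symm hc⟩
      rw [← h5, mem_filter] at h6
      exact h6.2 hX
  by_cases hX : LargeB B X β
  · have hY := hiff.1 hX
    have hs : supB X β = supB Y β := by
      rw [oB, oB, if_pos hX, if_pos hY] at h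
      exact h
    have he := heqs hs
    refine ⟨hiff, ?_, fun _ => he⟩
    have h7 : ∀ k, secB X β k = secB Y β k := by
      intro k
      unfold secB
      simp only [he]
    ext k
    rw [mem_UB, mem_UB]
    simp only [tvB, h7]
  · have hY : ¬ LargeB B Y β := fun hc => hX (hiff.2 hc)
    rw [oB, oB, if_neg hX, if_neg hY] at h
    have hle : ∀ k, tvB B X β k ≤ tvB B Y β k := fun k =>
      min_le_min (secB_mono hXY β k) (le_refl _)
    have heq : ∀ k, tvB B X β k = tvB B Y β k := by
      intro k
      exact (Finset.sum_eq_sum_iff_of_le fun i _ => hle i).1 h k (mem_univ k)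
    have hU : UB B X β = UB B Y β := by
      ext k
      rw [mem_UB, mem_UB]
      simp only [heq]
    refine ⟨hiff, hU, ?_⟩
    rintro (hc | hc)
    · exact absurd hc hX
    · apply heqs
      have hex : ∃ k, secB Y β k < B β := by
        by_contra hcon
        push Not at hcon
        exact hY hcon
      obtain ⟨k0, hk0⟩ := hex
      have hall : ∀ k, tvB B Y β k = tvB B Y β k0 := by
        intro k
        apply le_antisymm
        · exact (mem_UB.1 (by rw [← hU, hc]; exact mem_univ k) k0)
        · exact (mem_UB.1 (by rw [← hU, hc]; exact mem_univ k0) k)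
      have hY1 : ∀ k, secB Y β k < B β := by
        intro k
        have h1 := hall k
        have h2 : tvB B Y β k0 < B β := lt_of_le_of_lt (min_le_left _ _) hk0
        by_contra hcon
        push Not at hcon
        rw [tvB, min_eq_right hcon] at h1
        omega
      rw [← sum_secB, ← sum_secB]
      refine Finset.sum_congr rfl fun k _ => ?_
      have h1 := heq k
      have h2 := hY1 k
      have h3 := secB_mono hXY β k
      rw [tvB, tvB, min_eq_left (by omega), min_eq_left (by omega)] at h1
      exact h1

open Classical in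
/-- A chosen element of a set. -/
noncomputable def chI {I : Type*} (s : Set I) : Option I :=
  if h : s.Nonempty then some h.choose else none

/-- The value at the chosen element of the support. -/
noncomputable def fvI {I : Type*} (X : I → Option (ZMod p)) : ZMod p :=
  (chI {j | X j ≠ none}).elim 0 fun j => (X j).getD 0

theorem fvI_shI {I : Type*} {X : I → Option (ZMod p)} (hX : X ≠ fun _ => none)
    (c : ZMod p) : fvI (shI c X) = fvI X + c := by
  have h : ({j | X j ≠ none} : Set I).Nonempty := by
    by_contra hc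
    rw [Set.not_nonempty_iff_eq_empty] at hc
    apply hX
    funext j
    by_contra hj
    have : j ∈ ({j | X j ≠ none} : Set I) := hj
    rw [hc] at this
    exact this
  have hset : ({j | shI c X j ≠ none} : Set I) = {j | X j ≠ none} := by
    ext j
    simp [shI]
  have h1 : ∃ j, chI {j | X j ≠ none} = some j ∧ X j ≠ none := by
    refine ⟨h.choose, ?_, h.choose_spec⟩
    rw [chI, dif_pos h]
  obtain ⟨j, hj1, hj2⟩ := h1
  rw [fvI, fvI, hset, hj1]
  simp only [Option.elim_some, shI]
  cases hx : X j with
  | none => exact absurd hx hj2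
  | some a => simp

end blocks

end Pool.Agent.ZPT
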