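import Mathlib

set_option autoImplicit false

/-!
The shift graph lemma, and iterated sets of colours.
-/

namespace Pool.Agent.ZPT

open Finset

/-- **Shift graph lemma.** Colourings of increasing `(r + 1)`-tuples below `L` with few colours give
two consecutive tuples the same colour. -/
theorem shift_lemma (r : ℕ) : ∀ C : ℕ, ∃ L : ℕ, ∀ (K : Type) [Finite K], Nat.card K ≤ C →
    ∀ φ : (Fin (r + 1) → ℕ) → K, ∃ P : Fin (r + 2) → ℕ, StrictMono P ∧ (∀ i, P i < L) ∧
      φ (fun i => P i.castSucc) = φ (fun i => P i.succ) := by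
  induction r with
  | zero =>
    intro C
    refine ⟨C + 1, fun K _ hK φ => ?_⟩
    have : Fintype K := Fintype.ofFinite K
    rw [Nat.card_eq_fintype_card] at hK
    obtain ⟨a, b, hab, he⟩ := Fintype.exists_ne_map_eq_of_card_lt
      (fun i : Fin (C + 1) => φ (fun _ => (i : ℕ))) (by rw [Fintype.card_fin]; omega)
    wlog hlt : a < b generalizing a b
    · exact this b a (Ne.symm hab) he.symm (lt_of_le_of_ne (not_lt.1 hlt) (Ne.symm hab))
    refine ⟨![(a : ℕ), (b : ℕ)], ?_, ?_, ?_⟩
    · intro i j hij
      fin_cases i <;> fin_cases j <;> simp at hij ⊢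
      exact hlt
    · intro i
      fin_cases i
      · exact a.2
      · exact b.2
    · have h1 : (fun i : Fin 1 => (![(a : ℕ), (b : ℕ)] : Fin 2 → ℕ) i.castSucc) = fun _ => (a : ℕ) := by
        funext i
        fin_cases i
        rfl
      have h2 : (fun i : Fin 1 => (![(a : ℕ), (b : ℕ)] : Fin 2 → ℕ) i.succ) = fun _ => (b : ℕ) := by
        funext i
        fin_cases i
        rfl
      rw [h1, h2]
      exact he
  | succ r ih =>
    intro C
    obtain ⟨L, hL⟩ := ih (2 ^ C)
    refine ⟨L, fun K _ hK φ => ?_⟩
    have : Fintype K := Fintype.ofFinite K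
    have hcard : Nat.card (Set K) ≤ 2 ^ C := by
      rw [Nat.card_eq_fintype_card, Fintype.card_set]
      rw [Nat.card_eq_fintype_card] at hK
      exact Nat.pow_le_pow_right (by norm_num) hK
    obtain ⟨P, hP, hPL, he⟩ := hL (Set K) hcard
      (fun Q => {c | ∃ x, (∀ i, Q i < x) ∧ x < L ∧ φ (Fin.snoc Q x : Fin (r + 2) → ℕ) = c})
    have h1 : φ P ∈ {c | ∃ x, (∀ i, (fun i : Fin (r + 1) => P i.castSucc) i < x) ∧ x < L ∧
        φ (Fin.snoc (fun i : Fin (r + 1) => P i.castSucc) x : Fin (r + 2) → ℕ) = c} := by
      refine ⟨P (Fin.last (r + 1)), fun i => hP (Fin.castSucc_lt_last i), hPL _, ?_⟩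
      congr 1
      exact Fin.snoc_init_self P
    rw [he] at h1
    obtain ⟨x, hx, hxL, hφ⟩ := h1
    refine ⟨(Fin.snoc P x : Fin (r + 3) → ℕ), ?_, ?_, ?_⟩
    · have hxP : ∀ i, P i < x := by
        intro i
        refine Fin.cases ?_ (fun j => hx j) i
        exact lt_trans (hP (Fin.succ_pos 0)) (hx 0)
      intro i j hij
      induction j using Fin.lastCases with
      | last =>
        induction i using Fin.lastCases with
        | last => exact absurd hij (lt_irrefl _)
        | cast i =>
          rw [Fin.snoc_last, Fin.snoc_castSucc]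
          exact hxP i
      | cast j =>
        induction i using Fin.lastCases with
        | last => exact absurd (hij.trans (Fin.castSucc_lt_last j)) (lt_irrefl _)
        | cast i =>
          rw [Fin.snoc_castSucc, Fin.snoc_castSucc]
          exact hP (by simpa using hij)
    · intro i
      induction i using Fin.lastCases with
      | last => rw [Fin.snoc_last]; exact hxL
      | cast i => rw [Fin.snoc_castSucc]; exact hPL i
    · have h2 : (fun i : Fin (r + 2) => (Fin.snoc P x : Fin (r + 3) → ℕ) i.castSucc) = P := by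
        funext i
        rw [Fin.snoc_castSucc]
      have h3 : (fun i : Fin (r + 2) => (Fin.snoc P x : Fin (r + 3) → ℕ) i.succ) =
          (Fin.snoc (fun i : Fin (r + 1) => P i.succ) x : Fin (r + 2) → ℕ) := by
        funext i
        induction i using Fin.lastCases with
        | last =>
          rw [Fin.succ_last, Fin.snoc_last, Fin.snoc_last]
        | cast i =>
          rw [Fin.succ_castSucc, Fin.snoc_castSucc, Fin.snoc_castSucc]
      rw [h2, h3, hφ]

/-- Iterated power sets. -/
def Lab (K : Type) : ℕ → Type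
  | 0 => K
  | n + 1 => Set (Lab K n)

instance finite_Lab (K : Type) [Finite K] : ∀ n, Finite (Lab K n)
  | 0 => inferInstanceAs (Finite K)
  | n + 1 => by
    have := finite_Lab K n
    exact inferInstanceAs (Finite (Set (Lab K n)))

variable {A K : Type}

/-- The set behind a label. -/
def toSet {n : ℕ} (a : Lab K (n + 1)) : Set (Lab K n) := a

/-- The iterated set of colours: `n` more choices, the next one in the family number `l.length`. -/
def cc (c : List A → K) (F : ℕ → Set A) : (n : ℕ) → List A → Lab K n
  | 0, l => c l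
  | n + 1, l => {a : Lab K n | ∃ S ∈ F l.length, cc c F n (l ++ [S]) = a}

theorem cc_succ (c : List A → K) (F : ℕ → Set A) (n : ℕ) (l : List A) :
    cc c F (n + 1) l = {a : Lab K n | ∃ S ∈ F l.length, cc c F n (l ++ [S]) = a} := rfl

theorem cc_mem {c : List A → K} {F : ℕ → Set A} {n : ℕ} {l : List A} {S : A} (hS : S ∈ F l.length) :
    (cc c F n (l ++ [S])) ∈ toSet (cc c F (n + 1) l) := ⟨S, hS, rfl⟩

theorem nest_aux (c : List A → K) (F G : ℕ → Set A) (hFG : ∀ i, G i ⊆ F (i + 1)) (S : A) :
    ∀ (n : ℕ) (T : List A) (x : A), (∀ i (h : i < (T ++ [x]).length), (T ++ [x])[i] ∈ G i) →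
      cc c F n (S :: T) = cc c G n (T ++ [x]) →
      ∃ (U : List A) (y : A), U.length = T.length + n ∧
        (∀ i (h : i < (U ++ [y]).length), (U ++ [y])[i] ∈ G i) ∧ c (S :: U) = c (U ++ [y]) := by
  intro n
  induction n with
  | zero =>
    intro T x hT h
    exact ⟨T, x, by simp, hT, h⟩
  | succ n ih =>
    intro T x hT h
    have hx : x ∈ F (S :: T).length := by
      have h1 := hT T.length (by simp)
      rw [List.getElem_append_right (le_refl _)] at h1
      simp only [Nat.sub_self, List.getElem_cons_zero] at h1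
      rw [List.length_cons]
      exact hFG _ h1
    have h2 : (cc c F n ((S :: T) ++ [x])) ∈ toSet (cc c G (n + 1) (T ++ [x])) := by
      rw [← h]
      exact cc_mem hx
    obtain ⟨y, hy, he⟩ := h2
    have hT' : ∀ i (h : i < (T ++ [x] ++ [y]).length), (T ++ [x] ++ [y])[i] ∈ G i := by
      intro i hi
      by_cases hi' : i < (T ++ [x]).length
      · rw [List.getElem_append_left hi']
        exact hT i hi'
      · have hi2 : i = (T ++ [x]).length := by
          rw [List.length_append, List.length_singleton] at hi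
          omega
        subst hi2
        rw [List.getElem_append_right (le_refl _)]
        simp only [Nat.sub_self, List.getElem_cons_zero]
        exact hy
    obtain ⟨U, z, hU, hUG, hc⟩ := ih (T ++ [x]) y hT' he.symm
    refine ⟨U, z, ?_, hUG, hc⟩
    rw [hU, List.length_append, List.length_singleton]
    omega

/-- Two systems with the same iterated colour set. -/
theorem nest (c : List A → K) (F G : ℕ → Set A) (hFG : ∀ i, G i ⊆ F (i + 1)) (n : ℕ)
    (hG : (G 0).Nonempty) (h : cc c F (n + 1) [] = cc c G (n + 1) []) :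
    ∃ (S : A) (U : List A) (y : A), S ∈ F 0 ∧ U.length = n ∧
      (∀ i (h : i < (U ++ [y]).length), (U ++ [y])[i] ∈ G i) ∧ c (S :: U) = c (U ++ [y]) := by
  obtain ⟨x, hx⟩ := hG
  have h1 : (cc c G n ([] ++ [x])) ∈ toSet (cc c F (n + 1) []) := by
    rw [h]
    exact cc_mem (l := []) hx
  obtain ⟨S, hS, he⟩ := h1
  obtain ⟨U, y, hU, hUG, hc⟩ := nest_aux c F G hFG S n [] x (by
    intro i hi
    simp only [List.nil_append, List.length_singleton] at hi
    have : i = 0 := by omega
    subst this
    exact hx) he
  exact ⟨S, U, y, hS, by rw [hU]; simp, hUG, hc⟩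

end Pool.Agent.ZPT
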