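import Mathlib

set_option autoImplicit false

/-!
Words with prescribed numbers of letters, and permutations between vectors of the same type.
-/

namespace Pool.Agent.ZPT.Gen

open Finset

variable {V : Type*} [AddCommGroup V] [Fintype V] [DecidableEq V]

theorem exists_word (c : V → ℕ) : ∃ l : List V,
    (∀ a, a ≠ 0 → l.count a = c a) ∧
      l.length = ∑ a ∈ (Finset.univ : Finset V).erase 0, c a ∧
      l.sum = ∑ a ∈ (Finset.univ : Finset V).erase 0, c a • a := by
  classical
  set M : Multiset V := ∑ a ∈ (Finset.univ : Finset V).erase 0, c a • {a} with hM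
  refine ⟨M.toList, ?_, ?_, ?_⟩
  · intro a ha
    rw [← Multiset.coe_count, Multiset.coe_toList, hM, Multiset.count_sum']
    simp only [Multiset.count_nsmul, Multiset.count_singleton]
    rw [Finset.sum_eq_single a]
    · simp
    · intro b _ hb
      rw [if_neg (Ne.symm hb), mul_zero]
    · intro h
      exact absurd (Finset.mem_erase.2 ⟨ha, Finset.mem_univ a⟩) h
  · rw [Multiset.length_toList, hM, Multiset.card_sum]
    refine Finset.sum_congr rfl fun a _ => ?_
    rw [Multiset.card_nsmul, Multiset.card_singleton, mul_one]
  · rw [Multiset.sum_toList, hM]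
    rw [← Multiset.coe_sumAddMonoidHom, map_sum]
    refine Finset.sum_congr rfl fun a _ => ?_
    rw [map_nsmul]
    simp

theorem sum_getD (l : List V) : ∀ n, l.length ≤ n → ∑ i ∈ range n, l.getD i 0 = l.sum := by
  induction l with
  | nil =>
    intro n _
    simp
  | cons x l ih =>
    intro n hn
    obtain ⟨m, rfl⟩ : ∃ m, n = m + 1 := ⟨n - 1, by simp only [List.length_cons] at hn; omega⟩
    rw [Finset.sum_range_succ', List.sum_cons]
    simp only [List.getD_cons_succ, List.getD_cons_zero]
    rw [ih m (by simpa using hn), add_comm]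

theorem card_getD (l : List V) {a : V} (ha : a ≠ 0) : ∀ n, l.length ≤ n →
    ((range n).filter fun i => l.getD i 0 = a).card = l.count a := by
  induction l with
  | nil =>
    intro n _
    simp [Ne.symm ha]
  | cons x l ih =>
    intro n hn
    obtain ⟨m, rfl⟩ : ∃ m, n = m + 1 := ⟨n - 1, by simp only [List.length_cons] at hn; omega⟩
    have h1 := ih m (by simpa using hn)
    rw [Finset.card_filter] at h1 ⊢
    rw [Finset.sum_range_succ']
    simp only [List.getD_cons_succ, List.getD_cons_zero]
    rw [h1, List.count_cons]
    simp

theorem exists_perm {n : ℕ} {W : Type*} [DecidableEq W] (f g : Fin n → W)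
    (h : ∀ a, ((Finset.univ : Finset (Fin n)).filter fun i => f i = a).card =
      ((Finset.univ : Finset (Fin n)).filter fun i => g i = a).card) :
    ∃ σ : Equiv.Perm (Fin n), f = g ∘ σ := by
  classical
  have h1 : ∀ a, Nonempty ({i // f i = a} ≃ {i // g i = a}) := by
    intro a
    rw [← Fintype.card_eq, Fintype.card_subtype, Fintype.card_subtype]
    exact h a
  refine ⟨(Equiv.sigmaFiberEquiv f).symm.trans
    ((Equiv.sigmaCongrRight fun a => (h1 a).some).trans (Equiv.sigmaFiberEquiv g)), ?_⟩
  funext i
  simp only [Function.comp, Equiv.trans_apply]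
  exact ((h1 (f i)).some ⟨i, rfl⟩).2.symm

/-- A permutation within the blocks between two vectors with the same multiplicities. -/
theorem exists_perm_blk {n : ℕ} {J : Type*} [DecidableEq J] (blk : Fin n → J) (u s : Fin n → V)
    (h : ∀ β, ∀ a, a ≠ 0 → ((Finset.univ : Finset (Fin n)).filter fun i => blk i = β ∧ u i = a).card =
      ((Finset.univ : Finset (Fin n)).filter fun i => blk i = β ∧ s i = a).card) :
    ∃ σ : Equiv.Perm (Fin n), (∀ i, blk (σ i) = blk i) ∧ u = s ∘ σ := by
  classical
  have h0 : ∀ β, ∀ a, ((Finset.univ : Finset (Fin n)).filter fun i => blk i = β ∧ u i = a).card =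
      ((Finset.univ : Finset (Fin n)).filter fun i => blk i = β ∧ s i = a).card := by
    intro β a
    by_cases ha : a = 0
    · subst ha
      have key : ∀ u : Fin n → V,
          ((Finset.univ : Finset (Fin n)).filter fun i => blk i = β ∧ u i = 0).card +
          ∑ a ∈ (Finset.univ : Finset V).erase 0,
            ((Finset.univ : Finset (Fin n)).filter fun i => blk i = β ∧ u i = a).card =
          ((Finset.univ : Finset (Fin n)).filter fun i => blk i = β).card := by
        intro u
        have h1 := Finset.card_eq_sum_card_fiberwise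
          (s := ((Finset.univ : Finset (Fin n)).filter fun i => blk i = β))
          (t := (Finset.univ : Finset V)) (f := u) (fun i _ => by simp)
        rw [Finset.add_sum_erase _ (fun a => ((Finset.univ : Finset (Fin n)).filter
          fun i => blk i = β ∧ u i = a).card) (Finset.mem_univ 0), h1]
        refine Finset.sum_congr rfl fun a _ => ?_
        rw [Finset.filter_filter]
      have h1 := key u
      have h2 := key s
      have h3 : ∑ a ∈ (Finset.univ : Finset V).erase 0,
            ((Finset.univ : Finset (Fin n)).filter fun i => blk i = β ∧ u i = a).card =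
          ∑ a ∈ (Finset.univ : Finset V).erase 0,
            ((Finset.univ : Finset (Fin n)).filter fun i => blk i = β ∧ s i = a).card :=
        Finset.sum_congr rfl fun a ha => h β a (Finset.ne_of_mem_erase ha)
      omega
    · exact h β a ha
  obtain ⟨σ, hσ⟩ := exists_perm (fun i => (blk i, u i)) (fun i => (blk i, s i)) (by
    rintro ⟨β, a⟩
    simp only [Prod.mk.injEq]
    exact h0 β a)
  refine ⟨σ, fun i => ?_, ?_⟩
  · have := congrFun hσ i
    simp only [Function.comp, Prod.mk.injEq] at this
    exact this.1.symm
  · funext i
    have := congrFun hσ i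
    simp only [Function.comp, Prod.mk.injEq] at this
    exact this.2

/-- The position of a coordinate in its block. -/
def pos {n : ℕ} {J : Type*} [DecidableEq J] (blk : Fin n → J) (i : Fin n) : ℕ :=
  ((Finset.univ : Finset (Fin n)).filter fun i' => i' < i ∧ blk i' = blk i).card

/-- The size of a block. -/
def nbl {n : ℕ} {J : Type*} [DecidableEq J] (blk : Fin n → J) (β : J) : ℕ :=
  ((Finset.univ : Finset (Fin n)).filter fun i => blk i = β).card

theorem pos_lt {n : ℕ} {J : Type*} [DecidableEq J] (blk : Fin n → J) (i : Fin n) :
    pos blk i < nbl blk (blk i) := by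
  unfold pos nbl
  apply Finset.card_lt_card
  rw [Finset.ssubset_iff_of_subset]
  · exact ⟨i, by simp, by simp⟩
  · intro x hx
    rw [mem_filter] at hx ⊢
    exact ⟨hx.1, hx.2.2⟩

theorem pos_lt_pos {n : ℕ} {J : Type*} [DecidableEq J] (blk : Fin n → J) {i j : Fin n}
    (hij : i < j) (hb : blk i = blk j) : pos blk i < pos blk j := by
  unfold pos
  apply Finset.card_lt_card
  rw [Finset.ssubset_iff_of_subset]
  · exact ⟨i, by simp [hij, hb], by simp⟩
  · intro x hx
    rw [mem_filter] at hx ⊢
    exact ⟨hx.1, lt_trans hx.2.1 hij, hx.2.2.trans hb⟩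

theorem pos_inj {n : ℕ} {J : Type*} [DecidableEq J] (blk : Fin n → J) {i j : Fin n}
    (hb : blk i = blk j) (h : pos blk i = pos blk j) : i = j := by
  rcases lt_trichotomy i j with hij | hij | hij
  · have := pos_lt_pos blk hij hb
    omega
  · exact hij
  · have := pos_lt_pos blk hij hb.symm
    omega

theorem pos_image {n : ℕ} {J : Type*} [DecidableEq J] (blk : Fin n → J) (β : J) :
    ((Finset.univ : Finset (Fin n)).filter fun i => blk i = β).image (pos blk) =
      range (nbl blk β) := by
  apply Finset.eq_of_subset_of_card_le
  · intro x hx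
    obtain ⟨i, hi, rfl⟩ := Finset.mem_image.1 hx
    rw [mem_filter] at hi
    rw [mem_range, ← hi.2]
    exact pos_lt blk i
  · rw [card_range, Finset.card_image_of_injOn]
    · exact le_refl _
    · intro i hi j hj hij
      rw [Finset.mem_coe, mem_filter] at hi hj
      exact pos_inj blk (hi.2.trans hj.2.symm) hij

/-- The number of the coordinates of a block of a vector given by the positions. -/
theorem card_blk {n : ℕ} {J : Type*} [DecidableEq J] (blk : Fin n → J) (β : J) (d : J → ℕ → V)
    (u : Fin n → V) (h1 : ∀ i, u i = d (blk i) (pos blk i)) (a : V) :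
    ((Finset.univ : Finset (Fin n)).filter fun i => blk i = β ∧ u i = a).card =
      ((range (nbl blk β)).filter fun j => d β j = a).card := by
  rw [← pos_image blk β, Finset.filter_image, Finset.card_image_of_injOn]
  · congr 1
    ext i
    simp only [mem_filter, mem_univ, true_and]
    constructor
    · rintro ⟨hb, hu⟩
      refine ⟨hb, ?_⟩
      rw [← hu, h1 i, hb]
    · rintro ⟨hb, hu⟩
      refine ⟨hb, ?_⟩
      rw [← hu, h1 i, hb]
  · intro i hi j hj hij
    rw [Finset.mem_coe, mem_filter, mem_filter] at hi hj
    exact pos_inj blk (hi.1.2.trans hj.1.2.symm) hij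

/-- Splitting a range. -/
theorem card_range_split (N m : ℕ) (d : ℕ → V) (a : V) :
    ((range (N + m)).filter fun j => d j = a).card =
      ((range N).filter fun j => d j = a).card +
      ((range m).filter fun x => d (N + x) = a).card := by
  rw [Finset.card_filter, Finset.card_filter, Finset.card_filter, Finset.sum_range_add]

end Pool.Agent.ZPT.Gen
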