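import Mathlib

set_option autoImplicit false

/-!
The vectors attached to tuples of sets and to patterns, and the types of their differences.
-/

namespace Pool.Agent.ZPT.Gen

open Finset

variable {p : ℕ} [hp : Fact p.Prime] {V : Type*} [AddCommGroup V] [Module (ZMod p) V]
  [DecidableEq V]

/-- The rank of `j` in `S`. -/
def rk (S : Finset ℕ) (j : ℕ) : ℕ := (S.filter fun i => i < j).card

/-- The word `ω` written on `S`. -/
def br (ω : ℕ → V) (S : Finset ℕ) (j : ℕ) : V := if j ∈ S then ω (rk S j) else 0

/-- Weighted sum of the words. -/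
def vP (ω : ℕ → V) : ZMod p → List (Finset ℕ) → ℕ → V
  | _, [], _ => 0
  | a, S :: l, j => a • br ω S j + vP ω (a + 1) l j

/-- Sum of the words. -/
def sB (ω : ℕ → V) : List (Finset ℕ) → ℕ → V
  | [], _ => 0
  | S :: l, j => br ω S j + sB ω l j

theorem vP_add_one (ω : ℕ → V) (l : List (Finset ℕ)) (j : ℕ) : ∀ a : ZMod p,
    vP ω (a + 1) l j = vP ω a l j + sB ω l j := by
  induction l with
  | nil => intro a; simp [vP, sB]
  | cons S l ih =>
    intro a
    rw [vP, vP, sB, ih (a + 1), add_smul, one_smul]
    abel

theorem vP_append (ω : ℕ → V) (l : List (Finset ℕ)) (y : Finset ℕ) (j : ℕ) : ∀ a : ZMod p,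
    vP ω a (l ++ [y]) j = vP ω a l j + (a + (l.length : ZMod p)) • br ω y j := by
  induction l with
  | nil => intro a; simp [vP]
  | cons S l ih =>
    intro a
    have h1 : a + ((l.length + 1 : ℕ) : ZMod p) = a + 1 + (l.length : ZMod p) := by
      push_cast
      ring
    rw [List.cons_append, vP, vP, ih (a + 1), List.length_cons, h1, add_assoc (a • br ω S j)]

theorem sB_append (ω : ℕ → V) (l : List (Finset ℕ)) (y : Finset ℕ) (j : ℕ) :
    sB ω (l ++ [y]) j = sB ω l j + br ω y j := by
  induction l with
  | nil => simp [sB]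
  | cons S l ih =>
    rw [List.cons_append, sB, sB, ih, add_assoc]

theorem vP_diff (ω : ℕ → V) (S : Finset ℕ) (U : List (Finset ℕ)) (y : Finset ℕ) (j : ℕ)
    (h : U.length + 2 = p) :
    vP ω (1 : ZMod p) (S :: U) j - vP ω (1 : ZMod p) (U ++ [y]) j = sB ω (S :: (U ++ [y])) j := by
  rw [vP, vP_append, vP_add_one, sB, sB_append]
  have h1 : ((U.length + 2 : ℕ) : ZMod p) = 0 := by rw [h]; simp
  have h2 : (1 : ZMod p) + (U.length : ZMod p) = -1 := by
    push_cast at h1
    linear_combination h1
  rw [h2, one_smul, neg_smul, one_smul]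
  abel

omit hp in
theorem rk_lt {S : Finset ℕ} {i j : ℕ} (hi : i ∈ S) (hij : i < j) : rk S i < rk S j := by
  unfold rk
  apply Finset.card_lt_card
  rw [Finset.ssubset_iff_of_subset]
  · exact ⟨i, by simp [hi, hij], by simp⟩
  · intro x hx
    rw [mem_filter] at hx ⊢
    exact ⟨hx.1, by omega⟩

omit hp in
theorem rk_injOn (S : Finset ℕ) : Set.InjOn (rk S) S := by
  intro i hi j hj hij
  rcases lt_trichotomy i j with h | h | h
  · exact absurd (rk_lt hi h) (by omega)
  · exact h
  · exact absurd (rk_lt hj h) (by omega)

omit hp in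
theorem rk_image (S : Finset ℕ) : S.image (rk S) = range S.card := by
  apply Finset.eq_of_subset_of_card_le
  · intro r hr
    obtain ⟨j, hj, rfl⟩ := Finset.mem_image.1 hr
    rw [mem_range, rk]
    apply Finset.card_lt_card
    rw [Finset.ssubset_iff_of_subset (Finset.filter_subset _ _)]
    exact ⟨j, hj, by simp⟩
  · rw [card_range, Finset.card_image_of_injOn (rk_injOn S)]

omit hp in
theorem card_word (ω : ℕ → V) (S : Finset ℕ) (a : V) :
    (S.filter fun j => ω (rk S j) = a).card = ((range S.card).filter fun r => ω r = a).card := by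
  rw [← rk_image S, Finset.filter_image, Finset.card_image_of_injOn]
  exact (rk_injOn S).mono (Finset.coe_subset.2 (Finset.filter_subset _ _))

theorem sB_eq_zero (ω : ℕ → V) (l : List (Finset ℕ)) (j : ℕ) (h : ∀ S ∈ l, j ∉ S) :
    sB ω l j = 0 := by
  induction l with
  | nil => rfl
  | cons S l ih =>
    rw [sB, br, if_neg (h S (by simp)), ih fun T hT => h T (by simp [hT]), add_zero]

theorem card_sB (ω : ℕ → V) (B N : ℕ) {a : V} (ha : a ≠ 0) (l : List (Finset ℕ)) :
    (∀ S ∈ l, S.card = B ∧ S ⊆ range N) → l.Pairwise (fun S T => Disjoint S T) →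
    ((range N).filter fun j => sB ω l j = a).card =
      l.length * ((range B).filter fun r => ω r = a).card := by
  induction l with
  | nil =>
    intro _ _
    rw [List.length_nil, zero_mul, Finset.card_eq_zero, Finset.filter_eq_empty_iff]
    intro j _
    exact fun h => ha h.symm
  | cons S l ih =>
    intro h hd
    rw [List.pairwise_cons] at hd
    have h1 := ih (fun T hT => h T (by simp [hT])) hd.2
    have hS := h S (by simp)
    have e : ((range N).filter fun j => sB ω (S :: l) j = a) =
        (S.filter fun j => ω (rk S j) = a) ∪ ((range N).filter fun j => sB ω l j = a) := by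
      ext j
      have hsb : sB ω (S :: l) j = (if j ∈ S then ω (rk S j) else 0) + sB ω l j := rfl
      rw [mem_union, mem_filter, mem_filter, mem_filter, hsb]
      constructor
      · rintro ⟨hj, he⟩
        by_cases hjS : j ∈ S
        · left
          rw [if_pos hjS, sB_eq_zero ω l j fun T hT hjT =>
            (Finset.disjoint_left.1 (hd.1 T hT)) hjS hjT, add_zero] at he
          exact ⟨hjS, he⟩
        · right
          rw [if_neg hjS, zero_add] at he
          exact ⟨hj, he⟩
      · rintro (⟨hjS, he⟩ | ⟨hj, he⟩)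
        · refine ⟨hS.2 hjS, ?_⟩
          rw [if_pos hjS, sB_eq_zero ω l j fun T hT hjT =>
            (Finset.disjoint_left.1 (hd.1 T hT)) hjS hjT, add_zero]
          exact he
        · refine ⟨hj, ?_⟩
          have hjS : j ∉ S := by
            intro hjS
            rw [sB_eq_zero ω l j fun T hT hjT =>
              (Finset.disjoint_left.1 (hd.1 T hT)) hjS hjT] at he
            exact ha he.symm
          rw [if_neg hjS, zero_add]
          exact he
    rw [e, Finset.card_union_of_disjoint, card_word, hS.1, h1, List.length_cons]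
    · ring
    · rw [Finset.disjoint_left]
      intro j hj hj'
      rw [mem_filter] at hj hj'
      have h2 := hj'.2
      rw [sB_eq_zero ω l j fun T hT hjT =>
        (Finset.disjoint_left.1 (hd.1 T hT)) hj.1 hjT] at h2
      exact ha h2.symm

/-- The pattern of the partial sums of `w` at the places `Q`. -/
def pt {r : ℕ} (w : ℕ → V) (Q : Fin r → ℕ) (x : ℕ) : V :=
  ∑ i, if Q i = x then ∑ j ∈ range (i.val + 1), w j else 0

theorem pt_diff {r : ℕ} (w : ℕ → V) (hw : ∑ j ∈ range (r + 1), w j = 0)
    (P : Fin (r + 1) → ℕ) (x : ℕ) :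
    pt w (fun i : Fin r => P i.castSucc) x - pt w (fun i : Fin r => P i.succ) x =
      ∑ i : Fin (r + 1), if P i = x then w i.val else 0 := by
  have h1 : pt w (fun i : Fin r => P i.castSucc) x =
      ∑ i : Fin (r + 1), if P i = x then ∑ j ∈ range (i.val + 1), w j else 0 := by
    rw [Fin.sum_univ_castSucc]
    simp only [Fin.val_last, hw, ite_self, add_zero]
    rfl
  have h2 : pt w (fun i : Fin r => P i.succ) x =
      ∑ i : Fin (r + 1), if P i = x then ∑ j ∈ range i.val, w j else 0 := by
    rw [Fin.sum_univ_succ]
    simp only [Fin.val_zero, range_zero, sum_empty, ite_self, zero_add]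
    rfl
  rw [h1, h2, ← Finset.sum_sub_distrib]
  refine Finset.sum_congr rfl fun i _ => ?_
  split_ifs
  · rw [Finset.sum_range_succ]
    abel
  · abel

theorem card_pt {r L : ℕ} (w : ℕ → V) (P : Fin r → ℕ) (hP : Function.Injective P)
    (hL : ∀ i, P i < L) {a : V} (ha : a ≠ 0) :
    ((range L).filter fun x => (∑ i : Fin r, if P i = x then w i.val else 0) = a).card =
      ((range r).filter fun i => w i = a).card := by
  have h1 : ∀ i, (∑ i' : Fin r, if P i' = P i then w i'.val else 0) = w i.val := by
    intro i
    rw [Finset.sum_eq_single i]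
    · rw [if_pos rfl]
    · intro i' _ hne
      rw [if_neg fun h => hne (hP h)]
    · intro h
      exact absurd (mem_univ i) h
  have e : ((range L).filter fun x => (∑ i : Fin r, if P i = x then w i.val else 0) = a) =
      ((Finset.univ : Finset (Fin r)).filter fun i => w i.val = a).image P := by
    ext x
    simp only [mem_filter, mem_image, mem_univ, true_and, mem_range]
    constructor
    · rintro ⟨hx, he⟩
      by_cases hex : ∃ i, P i = x
      · obtain ⟨i, rfl⟩ := hex
        rw [h1] at he
        exact ⟨i, he, rfl⟩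
      · push Not at hex
        rw [Finset.sum_eq_zero fun i _ => if_neg (hex i)] at he
        exact absurd he.symm ha
    · rintro ⟨i, hi, rfl⟩
      exact ⟨hL i, (h1 i).trans hi⟩
  rw [e, Finset.card_image_of_injective _ hP]
  have e2 : ((range r).filter fun i => w i = a) =
      ((Finset.univ : Finset (Fin r)).filter fun i => w i.val = a).map Fin.valEmbedding := by
    ext i
    simp only [mem_filter, mem_range, mem_map, mem_univ, true_and, Fin.valEmbedding_apply]
    constructor
    · rintro ⟨hi, he⟩
      exact ⟨⟨i, hi⟩, he, rfl⟩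
    · rintro ⟨i, he, rfl⟩
      exact ⟨i.2, he⟩
  rw [e2, Finset.card_map]

end Pool.Agent.ZPT.Gen
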