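import Pool.Agent.ZPT.TuckB
import Pool.Agent.ZPT.Nest
import Pool.Agent.ZPT.VecV
import Pool.Agent.ZPT.TypesV

set_option autoImplicit false

/-!
Generating sets invariant under the permutations of the coordinates which preserve blocks.
-/

namespace Pool.Agent.ZPT.Gen

open Finset

section xv

variable {p : ℕ} [hp : Fact p.Prime] {J : Type*} {N : J → ℕ}

/-- The value of `X` at a place of a block. -/
def xv (X : Co N → Option (ZMod p)) (β : J) (j : ℕ) : Option (ZMod p) :=
  if h : j < N β then X ⟨β, ⟨j, h⟩⟩ else none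

theorem xv_shI {X : Co N → Option (ZMod p)} {c k : ZMod p} {β : J} {j : ℕ} :
    xv (shI c X) β j = some k ↔ xv X β j = some (k - c) := by
  unfold xv
  split_ifs
  · exact shI_eq_some
  · simp

omit hp in
theorem xv_le {X Y : Co N → Option (ZMod p)} (h : LeI X Y) {β : J} {j : ℕ} {k : ZMod p}
    (hX : xv X β j = some k) : xv Y β j = some k := by
  unfold xv at hX ⊢
  split_ifs with hj
  · rw [dif_pos hj] at hX
    rw [h _ (by rw [hX]; simp), hX]
  · rw [dif_neg hj] at hX
    exact absurd hX (by simp)

theorem secB_eq (X : Co N → Option (ZMod p)) (β : J) (k : ZMod p) :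
    secB X β k = ((range (N β)).filter fun j => xv X β j = some k).card := by
  have e : ((range (N β)).filter fun j => xv X β j = some k) =
      ((Finset.univ : Finset (Fin (N β))).filter fun x => X ⟨β, x⟩ = some k).map
        Fin.valEmbedding := by
    ext i
    simp only [mem_filter, mem_range, mem_map, mem_univ, true_and, Fin.valEmbedding_apply]
    constructor
    · rintro ⟨hi, he⟩
      rw [xv, dif_pos hi] at he
      exact ⟨⟨i, hi⟩, he, rfl⟩
    · rintro ⟨i, he, rfl⟩
      refine ⟨i.2, ?_⟩
      rw [xv, dif_pos i.2]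
      exact he
  rw [e, Finset.card_map, secB]

/-- The families of the tuples of sets in the sectors `t, 2t, 3t, ...`. -/
def FamB (B : J → ℕ) (X : Co N → Option (ZMod p)) (t : ZMod p) (i : ℕ) : Set (J → Finset ℕ) :=
  {T | ∀ β, (T β).card = B β ∧ T β ⊆ range (N β) ∧ ∀ j ∈ T β, xv X β j = some (t * (i + 1))}

end xv

variable (p : ℕ) [hp : Fact p.Prime] {V : Type*} [AddCommGroup V] [Module (ZMod p) V]
  [Fintype V] [DecidableEq V] {J : Type} [Fintype J] [DecidableEq J]

/-- The vector of a tuple of sets and a tuple of places. -/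
def vecB {n r : ℕ} (blk : Fin n → J) (N : J → ℕ) (ω w : J → ℕ → V) (l : List (J → Finset ℕ))
    (Q : Fin r → ℕ) (i : Fin n) : V :=
  if pos blk i < N (blk i) then
    vP (ω (blk i)) (1 : ZMod p) (l.map fun T => T (blk i)) (pos blk i)
  else pt (w (blk i)) Q (pos blk i - N (blk i))

theorem main_labelB {n C L r : ℕ} {N B : J → ℕ} (blk : Fin n → J) (S : Set (Fin n → V))
    (hperm : ∀ σ : Equiv.Perm (Fin n), (∀ i, blk (σ i) = blk i) → ∀ s ∈ S, s ∘ σ ∈ S)
    (f : (Fin n → V) → Fin C) (hf : ∀ x, ∀ s ∈ S, f x ≠ f (x + s))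
    (s : Fin n → V) (hs : s ∈ S) (ω w : J → ℕ → V)
    (hw : ∀ β, ∑ j ∈ range (r + 2), w β j = 0)
    (hcount : ∀ β, ∀ a : V, a ≠ 0 →
      ((Finset.univ : Finset (Fin n)).filter fun i => blk i = β ∧ s i = a).card =
      p * ((range (B β)).filter fun j => ω β j = a).card +
        ((range (r + 2)).filter fun j => w β j = a).card)
    (hNL : ∀ β, N β + L ≤ nbl blk β ∨ (N β = 0 ∧ B β = 0 ∧ ∀ j, w β j = 0))
    (hL : ∀ (K : Type) [Finite K], Nat.card K ≤ C → ∀ φ : (Fin (r + 1) → ℕ) → K,
      ∃ P : Fin (r + 2) → ℕ, StrictMono P ∧ (∀ i, P i < L) ∧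
        φ (fun i => P i.castSucc) = φ (fun i => P i.succ))
    (X Y : Co N → Option (ZMod p)) (hX : ∀ β, LargeB B X β) (hXY : LeI X Y) (t : ZMod p)
    (ht : t ≠ 0)
    (heq : (fun t' => cc (fun (l : List (J → Finset ℕ)) (Q : Fin (r + 1) → Fin L) =>
        f (vecB p blk N ω w l fun i => (Q i : ℕ))) (FamB B Y t') (p - 2 + 1) []) =
      (fun t' => cc (fun (l : List (J → Finset ℕ)) (Q : Fin (r + 1) → Fin L) =>
        f (vecB p blk N ω w l fun i => (Q i : ℕ))) (FamB B (shI t X) t') (p - 2 + 1) [])) :
    False := by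
  have hp2 : 2 ≤ p := hp.out.two_le
  set c : List (J → Finset ℕ) → (Fin (r + 1) → Fin L) → Fin C := fun l Q =>
    f (vecB p blk N ω w l fun i => (Q i : ℕ)) with hc
  have h1 := congrFun heq (-t)
  -- the sectors
  have hG : ∀ i T, T ∈ FamB B (shI t X) (-t) i → ∀ β, (T β).card = B β ∧ T β ⊆ range (N β) ∧
      ∀ j ∈ T β, xv X β j = some (-t * (i + 2)) := by
    intro i T hT β
    refine ⟨(hT β).1, (hT β).2.1, fun j hj => ?_⟩
    have := (hT β).2.2 j hj
    rw [xv_shI] at this
    rw [this]
    congr 1
    ring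
  have hG' : ∀ i T, T ∈ FamB B (shI t X) (-t) i → ∀ β, ∀ j ∈ T β,
      xv Y β j = some (-t * (i + 2)) := by
    intro i T hT β j hj
    exact xv_le hXY ((hG i T hT β).2.2 j hj)
  have hFG : ∀ i, FamB B (shI t X) (-t) i ⊆ FamB B Y (-t) (i + 1) := by
    intro i T hT β
    refine ⟨(hT β).1, (hT β).2.1, fun j hj => ?_⟩
    rw [hG' i T hT β j hj]
    push_cast
    congr 1
    ring
  have hne : (FamB B (shI t X) (-t) 0).Nonempty := by
    have h2 : ∀ β, ∃ T : Finset ℕ, T ⊆ ((range (N β)).filter fun j => xv X β j = some (-t * 2)) ∧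
        T.card = B β := by
      intro β
      have h3 := hX β (-t * 2)
      rw [secB_eq] at h3
      exact Finset.exists_subset_card_eq h3
    choose T hT hTc using h2
    refine ⟨T, fun β => ⟨hTc β, fun j hj => (mem_filter.1 (hT β hj)).1, fun j hj => ?_⟩⟩
    rw [xv_shI, (mem_filter.1 (hT β hj)).2]
    push_cast
    congr 1
    ring
  obtain ⟨S0, U, y, hS0, hU, hUG, hcc⟩ := nest c _ _ hFG (p - 2) hne h1
  -- the shift
  obtain ⟨P, hP, hPL, hφ⟩ := hL (Fin C) (by simp)
    (fun Q => f (vecB p blk N ω w (S0 :: U) Q))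
  have hcc' : f (vecB p blk N ω w (S0 :: U) fun i : Fin (r + 1) => P i.succ) =
      f (vecB p blk N ω w (U ++ [y]) fun i : Fin (r + 1) => P i.succ) := by
    have := congrFun hcc (fun i => ⟨P i.succ, hPL _⟩)
    exact this
  set v1 := vecB p blk N ω w (S0 :: U) (fun i : Fin (r + 1) => P i.castSucc) with hv1
  set v2 := vecB p blk N ω w (U ++ [y]) (fun i : Fin (r + 1) => P i.succ) with hv2
  have hfv : f v1 = f v2 := hφ.trans hcc'
  set A : List (J → Finset ℕ) := S0 :: (U ++ [y]) with hA
  have hAlen : A.length = p := by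
    rw [hA, List.length_cons, List.length_append, List.length_singleton, hU]
    omega
  have hAsec : ∀ β, ∀ i (h : i < A.length), (A[i] β).card = B β ∧ A[i] β ⊆ range (N β) ∧
      ∀ j ∈ A[i] β, xv Y β j = some (-t * (i + 1)) := by
    intro β i hi
    cases i with
    | zero =>
      refine ⟨(hS0 β).1, (hS0 β).2.1, fun j hj => ?_⟩
      rw [(hS0 β).2.2 j hj]
    | succ i =>
      have hi' : i < (U ++ [y]).length := by
        rw [hA, List.length_cons] at hi
        omega
      have h3 := hUG i hi'
      refine ⟨(h3 β).1, (h3 β).2.1, fun j hj => ?_⟩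
      rw [hG' i _ h3 β j hj]
      push_cast
      congr 1
      ring
  have hAmem : ∀ β, ∀ T ∈ A.map (fun T => T β), T.card = B β ∧ T ⊆ range (N β) := by
    intro β T hT
    obtain ⟨T', hT', rfl⟩ := List.mem_map.1 hT
    obtain ⟨i, hi, rfl⟩ := List.getElem_of_mem hT'
    exact ⟨(hAsec β i hi).1, (hAsec β i hi).2.1⟩
  have hApw : ∀ β, (A.map (fun T => T β)).Pairwise fun S T => Disjoint S T := by
    intro β
    rw [List.pairwise_map, List.pairwise_iff_getElem]
    intro i j hi hj hij
    rw [Finset.disjoint_left]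
    intro x hx hx'
    have h3 := (hAsec β i hi).2.2 x hx
    have h4 := (hAsec β j hj).2.2 x hx'
    rw [h3] at h4
    have h5 : -t * ((i : ZMod p) + 1) = -t * ((j : ZMod p) + 1) := Option.some.inj h4
    have h6 : (i : ZMod p) = (j : ZMod p) := by
      have := mul_left_cancel₀ (neg_ne_zero.2 ht) h5
      linear_combination this
    rw [ZMod.natCast_eq_natCast_iff'] at h6
    rw [hAlen] at hi hj
    rw [Nat.mod_eq_of_lt hi, Nat.mod_eq_of_lt hj] at h6
    omega
  -- the difference
  set d : J → ℕ → V := fun β j => if j < N β then sB (ω β) (A.map (fun T => T β)) j else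
    ∑ i : Fin (r + 2), if P i = j - N β then w β i.val else 0 with hd
  have hdiff : ∀ i : Fin n, (v1 - v2) i = d (blk i) (pos blk i) := by
    intro i
    rw [Pi.sub_apply, hv1, hv2, hd]
    simp only [vecB]
    split_ifs with hi
    · rw [List.map_cons, List.map_append, List.map_singleton, hA, List.map_cons, List.map_append,
        List.map_singleton]
      exact vP_diff (ω (blk i)) _ _ _ _ (by rw [List.length_map]; omega)
    · exact pt_diff (w (blk i)) (hw _) P (pos blk i - N (blk i))
  have hcard : ∀ β, ∀ a : V, a ≠ 0 →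
      ((Finset.univ : Finset (Fin n)).filter fun i => blk i = β ∧ (v1 - v2) i = a).card =
      ((Finset.univ : Finset (Fin n)).filter fun i => blk i = β ∧ s i = a).card := by
    intro β a ha
    rw [card_blk blk β d (v1 - v2) hdiff a, hcount β a ha]
    rcases hNL β with hNβ | ⟨hN0, hB0, hw0⟩
    · obtain ⟨m, hm⟩ : ∃ m, nbl blk β = N β + m := ⟨nbl blk β - N β, by omega⟩
      rw [hm, card_range_split]
      congr 1
      · have h7 := card_sB (ω β) (B β) (N β) ha (A.map fun T => T β) (hAmem β) (hApw β)
        rw [List.length_map, hAlen] at h7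
        refine Eq.trans ?_ h7
        congr 1
        apply Finset.filter_congr
        intro j hj
        rw [hd]
        simp only [if_pos (mem_range.1 hj)]
      · rw [← card_pt (L := m) (w β) P hP.injective
          (fun i => lt_of_lt_of_le (hPL i) (by omega)) ha]
        congr 1
        apply Finset.filter_congr
        intro j hj
        rw [hd]
        simp only [if_neg (show ¬ (N β + j < N β) by omega), Nat.add_sub_cancel_left]
    · have e1 : ((range (nbl blk β)).filter fun j => d β j = a).card = 0 := by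
        rw [Finset.card_eq_zero, Finset.filter_eq_empty_iff]
        intro j _ hj
        apply ha
        rw [← hj, hd]
        simp only [hN0, Nat.not_lt_zero, if_false, hw0, ite_self, Finset.sum_const_zero]
      have e2 : ((range (r + 2)).filter fun j => w β j = a).card = 0 := by
        rw [Finset.card_eq_zero, Finset.filter_eq_empty_iff]
        intro j _ hj
        apply ha
        rw [← hj, hw0]
      rw [e1, e2, hB0]
      simp
  obtain ⟨σ, hσb, hσ⟩ := exists_perm_blk blk (v1 - v2) s hcard
  have hdS : v1 - v2 ∈ S := by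
    rw [hσ]
    exact hperm σ hσb s hs
  have := hf v2 _ hdS
  rw [add_sub_cancel] at this
  exact this hfv.symm

/-- **Theorem.** For generating sets of Cayley graphs on `V ^ n` (`V` a finite vector space over
`F_p`) of bounded chromatic number which are invariant under the permutations of the coordinates
preserving `r` blocks, boundedly many forms per block suffice: the sum of the coordinates of the
block and its first `K` coordinates. -/
theorem symmetric_blocks (C : ℕ) (V : Type*) [AddCommGroup V] [Module (ZMod p) V]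
    [Finite V] : ∃ K : ℕ, ∀ (n r : ℕ)
    (blk : Fin n → Fin r) (S : Set (Fin n → V)),
    (∀ σ : Equiv.Perm (Fin n), (∀ i, blk (σ i) = blk i) → ∀ s ∈ S, s ∘ σ ∈ S) →
    (∃ f : (Fin n → V) → Fin C, ∀ x, ∀ s ∈ S, f x ≠ f (x + s)) →
    ∀ s ∈ S, (∃ β, ∑ i with blk i = β, s i ≠ 0) ∨
      ∃ i : Fin n, ((Finset.univ : Finset (Fin n)).filter fun i' => i' < i ∧ blk i' = blk i).card < K
        ∧ s i ≠ 0 := by
  classical
  have hNZ : NeZero p := ⟨hp.out.ne_zero⟩
  have hVF : Fintype V := Fintype.ofFinite V
  set R : ℕ := p * Fintype.card V with hR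
  obtain ⟨L, hL⟩ := shift_lemma R C
  set M : ℕ := Nat.card (ZMod p → Lab ((Fin (R + 1) → Fin L) → Fin C) (p - 2 + 1)) with hM
  refine ⟨M + 1 + L, fun n r blk S hperm ⟨f, hf⟩ s hs => ?_⟩
  by_contra hcon
  push Not at hcon
  obtain ⟨hsum, hzero'⟩ := hcon
  have hzero : ∀ i, pos blk i < M + 1 + L → s i = 0 := hzero'
  clear hzero'
  have hs0 : s ≠ 0 := by
    rintro rfl
    exact hf 0 0 hs (by simp)
  set m : Fin r → V → ℕ := fun β a =>
    ((Finset.univ : Finset (Fin n)).filter fun i => blk i = β ∧ s i = a).card with hm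
  have htot : ∀ β, m β 0 + ∑ a ∈ (Finset.univ : Finset V).erase 0, m β a = nbl blk β := by
    intro β
    have h1 := Finset.card_eq_sum_card_fiberwise
      (s := ((Finset.univ : Finset (Fin n)).filter fun i => blk i = β))
      (t := (Finset.univ : Finset V)) (f := s) (fun i _ => by simp)
    rw [Finset.add_sum_erase _ (m β) (Finset.mem_univ 0), nbl, h1]
    refine Finset.sum_congr rfl fun a _ => ?_
    rw [Finset.filter_filter]
  -- the large blocks
  have hm0 : ∀ β, M + 1 + L ≤ nbl blk β → M + 1 + L ≤ m β 0 := by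
    intro β hβ
    have h1 : range (M + 1 + L) ⊆
        ((Finset.univ : Finset (Fin n)).filter fun i => blk i = β ∧ s i = 0).image (pos blk) := by
      intro j hj
      rw [mem_range] at hj
      have h2 : j ∈ range (nbl blk β) := mem_range.2 (by omega)
      rw [← pos_image blk β] at h2
      obtain ⟨i, hi, rfl⟩ := Finset.mem_image.1 h2
      rw [mem_filter] at hi
      exact Finset.mem_image.2 ⟨i, mem_filter.2 ⟨mem_univ _, hi.2, hzero i hj⟩, rfl⟩
    have h2 := (Finset.card_le_card h1).trans Finset.card_image_le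
    rwa [card_range] at h2
  have hinact : ∀ β, nbl blk β < M + 1 + L → ∀ a, a ≠ 0 → m β a = 0 := by
    intro β hβ a ha
    rw [hm]
    simp only [Finset.card_eq_zero, Finset.filter_eq_empty_iff]
    rintro i _ ⟨hb, hsa⟩
    apply ha
    rw [← hsa]
    apply hzero
    have := pos_lt blk i
    rw [hb] at this
    omega
  -- the words
  have hωex := fun β => exists_word (V := V) (fun a => m β a / p)
  have hwex := fun β => exists_word (V := V) (fun a => m β a % p)
  choose lω hω1 hω2 hω3 using hωex
  choose lw hw1 hw2 hw3 using hwex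
  set B : Fin r → ℕ := fun β => (lω β).length with hB
  have hlw : ∀ β, (lw β).length ≤ R + 2 := by
    intro β
    rw [hw2]
    calc ∑ a ∈ (Finset.univ : Finset V).erase 0, m β a % p
        ≤ ∑ _a ∈ (Finset.univ : Finset V).erase 0, p :=
          Finset.sum_le_sum fun a _ => (Nat.mod_lt _ hp.out.pos).le
      _ ≤ ∑ _a : V, p := Finset.sum_le_sum_of_subset (Finset.erase_subset _ _)
      _ = R := by rw [Finset.sum_const, Finset.card_univ, smul_eq_mul, mul_comm]
      _ ≤ R + 2 := by omega
  have hmod : ∀ (k : ℕ) (a : V), (k % p) • a = k • a := by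
    intro k a
    have h1 : (p : ℕ) • a = 0 := by
      rw [← Nat.cast_smul_eq_nsmul (ZMod p)]
      simp
    conv_rhs => rw [← Nat.div_add_mod k p]
    rw [add_smul, mul_comm, mul_smul, h1, smul_zero, zero_add]
  have hwsum : ∀ β, ∑ j ∈ range (R + 2), (lw β).getD j 0 = 0 := by
    intro β
    rw [sum_getD (lw β) _ (hlw β), hw3]
    have h1 : ∑ i with blk i = β, s i = ∑ a : V, m β a • a := by
      rw [← Finset.sum_fiberwise ((Finset.univ : Finset (Fin n)).filter fun i => blk i = β) s s]
      refine Finset.sum_congr rfl fun a _ => ?_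
      rw [Finset.sum_congr rfl fun i hi => (mem_filter.1 hi).2, Finset.sum_const,
        Finset.filter_filter]
    rw [← Finset.add_sum_erase _ (fun a : V => m β a • a) (Finset.mem_univ 0),
      smul_zero, zero_add] at h1
    refine Eq.trans (Finset.sum_congr rfl fun a _ => ?_) (h1.symm.trans (hsum β))
    exact hmod _ _
  have hpB : ∀ β, p * B β + m β 0 ≤ nbl blk β := by
    intro β
    rw [hB]
    simp only
    rw [hω2, Finset.mul_sum, ← htot β, add_comm]
    gcongr with a _
    exact Nat.mul_div_le _ _
  have hcount : ∀ β, ∀ a : V, a ≠ 0 → m β a =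
      p * ((range (B β)).filter fun j => (lω β).getD j 0 = a).card +
        ((range (R + 2)).filter fun j => (lw β).getD j 0 = a).card := by
    intro β a ha
    rw [card_getD (lω β) ha (B β) (le_refl _), card_getD (lw β) ha _ (hlw β), hω1 β a ha,
      hw1 β a ha]
    exact (Nat.div_add_mod _ _).symm
  set N : Fin r → ℕ := fun β => if M + 1 + L ≤ nbl blk β then p * B β + M + 1 else 0 with hN
  have hBinact : ∀ β, nbl blk β < M + 1 + L → B β = 0 ∧ lw β = [] := by
    intro β hβ
    constructor
    · rw [hB]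
      simp only
      rw [hω2]
      refine Finset.sum_eq_zero fun a ha => ?_
      rw [hinact β hβ a (Finset.ne_of_mem_erase ha)]
      simp
    · rw [← List.length_eq_zero_iff, hw2]
      refine Finset.sum_eq_zero fun a ha => ?_
      rw [hinact β hβ a (Finset.ne_of_mem_erase ha)]
      simp
  -- the labels
  have hfin : Finite (ZMod p → Lab ((Fin (R + 1) → Fin L) → Fin C) (p - 2 + 1)) :=
    inferInstance
  set Lbl : (Co N → Option (ZMod p)) →
      (ZMod p → Lab ((Fin (R + 1) → Fin L) → Fin C) (p - 2 + 1)) := fun X t' =>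
    cc (fun (l : List (Fin r → Finset ℕ)) (Q : Fin (R + 1) → Fin L) =>
        f (vecB p blk N (fun β j => (lω β).getD j 0) (fun β j => (lw β).getD j 0) l
          fun i => (Q i : ℕ)))
      (FamB B X t') (p - 2 + 1) [] with hLbl
  refine tucker_blocks (N := N) (B := B) (M := M) ?_ ?_
    (fun X => ((Finite.equivFin _ (Lbl X) : Fin _) : ℕ)) (fun X => Fin.is_lt _) ?_
  · intro β
    by_cases hβ : M + 1 + L ≤ nbl blk β
    · right
      rw [hN]
      simp only [if_pos hβ]
    · left
      refine ⟨?_, (hBinact β (by omega)).1⟩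
      rw [hN]
      simp only [if_neg hβ]
  · have h1 : ∃ i, s i ≠ 0 := by
      by_contra hc
      push Not at hc
      exact hs0 (funext hc)
    obtain ⟨i, hi⟩ := h1
    refine ⟨blk i, ?_⟩
    have h2 : M + 1 + L ≤ pos blk i := by
      by_contra hc
      push Not at hc
      exact hi (hzero i hc)
    have h3 := pos_lt blk i
    rw [hN]
    simp only [if_pos (show M + 1 + L ≤ nbl blk (blk i) by omega)]
    omega
  · intro X Y hX hXY t ht heq
    have h1 : Lbl Y = Lbl (shI t X) := by
      have := Fin.ext heq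
      exact (Finite.equivFin _).injective this
    refine main_labelB p blk S hperm f hf s hs (fun β j => (lω β).getD j 0)
      (fun β j => (lw β).getD j 0) hwsum hcount ?_ hL X Y hX hXY t ht h1
    intro β
    by_cases hβ : M + 1 + L ≤ nbl blk β
    · left
      have h2 := hpB β
      have h3 := hm0 β hβ
      rw [hN]
      simp only [if_pos hβ]
      omega
    · right
      have h4 := hBinact β (by omega)
      refine ⟨?_, h4.1, fun j => ?_⟩
      · rw [hN]
        simp only [if_neg hβ]
      · rw [h4.2]
        simp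

end Pool.Agent.ZPT.Gen
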