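import Pool.Agent.ZPT.LabelB

set_option autoImplicit false

/-!
The `Z_p`-Tucker lemma with labels on the vectors all of whose blocks are large.
-/

namespace Pool.Agent.ZPT

open Finset

variable {p : ℕ} [hp : Fact p.Prime] {J : Type*} {N : J → ℕ}

open Classical in
/-- The index. -/
noncomputable def kI (label : (Co N → Option (ZMod p)) → ℕ) (X : Co N → Option (ZMod p)) : ZMod p :=
  haveI : NeZero p := ⟨hp.out.ne_zero⟩
  (Finset.exists_min_image (Finset.univ : Finset (ZMod p)) (fun k => label (shI k X))
    ⟨0, mem_univ _⟩).choose

theorem kI_spec (label : (Co N → Option (ZMod p)) → ℕ) (X : Co N → Option (ZMod p)) (k : ZMod p) :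
    label (shI (kI label X) X) ≤ label (shI k X) := by
  have : NeZero p := ⟨hp.out.ne_zero⟩
  exact (Finset.exists_min_image (Finset.univ : Finset (ZMod p)) (fun k => label (shI k X))
    ⟨0, mem_univ _⟩).choose_spec.2 k (mem_univ _)

/-- All the blocks are large. -/
def AllL (B : J → ℕ) (X : Co N → Option (ZMod p)) : Prop := ∀ β, LargeB B X β

theorem AllL_shI {B : J → ℕ} {X : Co N → Option (ZMod p)} (c : ZMod p) :
    AllL B (shI c X) ↔ AllL B X :=
  ⟨fun h β => (LargeB_shI c).1 (h β), fun h β => (LargeB_shI c).2 (h β)⟩

/-- The unbalanced blocks. -/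
def Ub (B : J → ℕ) (X : Co N → Option (ZMod p)) : Set J :=
  {β | ¬ LargeB B X β ∧ ¬ (haveI : NeZero p := ⟨hp.out.ne_zero⟩; UB B X β = Finset.univ)}

theorem Ub_shI (B : J → ℕ) (X : Co N → Option (ZMod p)) (c : ZMod p) :
    Ub B (shI c X) = Ub B X := by
  ext β
  rw [Ub, Ub, Set.mem_ofPred_eq, Set.mem_ofPred_eq, LargeB_shI, UB_univ_shI]

open Classical in
/-- The index. -/
noncomputable def oT [Fintype J] (B : J → ℕ) (α : ℕ) (label : (Co N → Option (ZMod p)) → ℕ)
    (X : Co N → Option (ZMod p)) : ℕ :=
  if AllL B X then α + label (shI (kI label X) X) else ∑ β, oB B X β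

open Classical in
/-- The sign. -/
noncomputable def sT (B : J → ℕ) (label : (Co N → Option (ZMod p)) → ℕ)
    (X : Co N → Option (ZMod p)) : ZMod p :=
  if AllL B X then - kI label X else
    (chI (Ub B X)).elim (fvI X) fun β => avg (UB B X β)

theorem chI_mem {I : Type*} {s : Set I} {j : I} (h : chI s = some j) : j ∈ s := by
  classical
  unfold chI at h
  split_ifs at h with hs
  rw [← Option.some.inj h]
  exact hs.choose_spec

theorem chI_none {I : Type*} {s : Set I} (h : chI s = none) : s = ∅ := by
  classical
  unfold chI at h
  split_ifs at h with hs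
  exact Set.not_nonempty_iff_eq_empty.1 hs

/-- **The `Z_p`-Tucker lemma for blocks.** -/
theorem tucker_blocks [Fintype J] {B : J → ℕ} {M : ℕ}
    (hNB : ∀ β, (N β = 0 ∧ B β = 0) ∨ N β = p * B β + M + 1) (hJ : ∃ β, N β ≠ 0)
    (label : (Co N → Option (ZMod p)) → ℕ) (hM : ∀ X, label X < M)
    (hl : ∀ X Y : Co N → Option (ZMod p), (∀ β, LargeB B X β) → LeI X Y → ∀ t, t ≠ 0 →
      label Y ≠ label (shI t X)) : False := by
  classical
  have hNZ : NeZero p := ⟨hp.out.ne_zero⟩
  obtain ⟨β1, hβ1⟩ := hJ
  have hβ1' : N β1 = p * B β1 + M + 1 := by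
    rcases hNB β1 with h | h
    · exact absurd h.1 hβ1
    · exact h
  have hsum1 : M + 1 ≤ ∑ β, N β := by
    calc M + 1 ≤ N β1 := by omega
      _ ≤ ∑ β, N β := Finset.single_le_sum (f := N) (fun _ _ => Nat.zero_le _) (mem_univ β1)
  set α : ℕ := ∑ β, N β - (M + 1) with hα
  -- the index of a vector with a block which is not large
  have hsmall : ∀ X : Co N → Option (ZMod p), ¬ AllL B X → ∑ β, oB B X β < α := by
    intro X hX
    unfold AllL at hX
    push Not at hX
    obtain ⟨β0, hβ0⟩ := hX
    have h1 := oB_lt hβ0
    have h2 : N β0 = p * B β0 + M + 1 := by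
      rcases hNB β0 with h | h
      · rw [h.2] at h1
        omega
      · exact h
    have h3 : ∑ β ∈ (Finset.univ : Finset J).erase β0, oB B X β ≤
        ∑ β ∈ (Finset.univ : Finset J).erase β0, N β := Finset.sum_le_sum fun β _ => oB_le B X β
    have h4 := Finset.add_sum_erase _ (fun β => oB B X β) (Finset.mem_univ β0)
    have h5 := Finset.add_sum_erase _ (fun β => N β) (Finset.mem_univ β0)
    omega
  -- the indices are distinct
  have hinj : ∀ X : Co N → Option (ZMod p), AllL B X → ∀ a b,
      label (shI a X) = label (shI b X) → a = b := by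
    intro X hL a b hab
    by_contra hne
    refine hl (shI a X) (shI a X) ((AllL_shI a).2 hL) (LeI.refl _) (b - a)
      (sub_ne_zero.2 (Ne.symm hne)) ?_
    rw [shI_shI, add_sub_cancel]
    exact hab
  have hfinal := tucker_fin (I := Co N) (m := ∑ β, N β - 1) (oT B α label) (sT B label) ?_ ?_ ?_
  · rw [Fintype.card_sigma] at hfinal
    simp only [Fintype.card_fin] at hfinal
    omega
  · intro X _
    unfold oT
    split_ifs with h
    · have := hM (shI (kI label X) X)
      omega
    · have := hsmall X h
      omega
  · intro X hX0 c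
    by_cases h : AllL B X
    · have h' : AllL B (shI c X) := (AllL_shI c).2 h
      have h1 := kI_spec label (shI c X)
      have h2 := kI_spec label X
      have e1 : label (shI (kI label (shI c X)) (shI c X)) = label (shI (kI label X) X) := by
        apply le_antisymm
        · have := h1 (kI label X - c)
          rwa [shI_shI (kI label X - c) c, add_sub_cancel] at this
        · rw [shI_shI]
          exact h2 _
      constructor
      · rw [oT, oT, if_pos h', if_pos h, e1]
      · rw [sT, sT, if_pos h', if_pos h]
        rw [shI_shI] at e1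
        have e2 := hinj X h _ _ e1
        linear_combination -e2
    · have h' : ¬ AllL B (shI c X) := fun hc => h ((AllL_shI c).1 hc)
      constructor
      · rw [oT, oT, if_neg h', if_neg h]
        exact Finset.sum_congr rfl fun β _ => oB_shI B X β c
      · rw [sT, sT, if_neg h', if_neg h, Ub_shI]
        cases hc : chI (Ub B X) with
        | none =>
          simp only [Option.elim_none]
          exact fvI_shI hX0 c
        | some β =>
          simp only [Option.elim_some]
          have h3 := chI_mem hc
          exact avg_UB_shI h3.2 c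
  · intro X Y hX0 hXY ho
    by_cases hLX : AllL B X
    · have hLY : AllL B Y := fun β k => (hLX β k).trans (secB_mono hXY β k)
      rw [oT, oT, if_pos hLX, if_pos hLY] at ho
      have e1 : label (shI (kI label X) X) = label (shI (kI label Y) Y) := by omega
      rw [sT, sT, if_pos hLX, if_pos hLY]
      congr 1
      by_contra hne
      refine hl (shI (kI label Y) X) (shI (kI label Y) Y) ((AllL_shI _).2 hLX)
        (hXY.shI _) (kI label X - kI label Y) (sub_ne_zero.2 hne) ?_
      rw [shI_shI, add_sub_cancel]
      exact e1.symm
    · by_cases hLY : AllL B Y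
      · rw [oT, oT, if_neg hLX, if_pos hLY] at ho
        have := hsmall X hLX
        omega
      · rw [oT, oT, if_neg hLX, if_neg hLY] at ho
        have heq : ∀ β, oB B X β = oB B Y β := by
          intro β
          exact (Finset.sum_eq_sum_iff_of_le fun i _ => oB_mono B hXY i).1 ho β (mem_univ β)
        have hall := fun β => oB_eq hXY (heq β)
        have hUb : Ub B X = Ub B Y := by
          ext β
          rw [Ub, Ub, Set.mem_ofPred_eq, Set.mem_ofPred_eq, (hall β).1, (hall β).2.1]
        rw [sT, sT, if_neg hLX, if_neg hLY, ← hUb]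
        cases hc : chI (Ub B X) with
        | none =>
          simp only [Option.elim_none]
          have hemp := chI_none hc
          have hXY' : X = Y := by
            funext ⟨β, x⟩
            refine (hall β).2.2 ?_ x
            by_contra hcon
            push Not at hcon
            have : β ∈ Ub B X := hcon
            rw [hemp] at this
            exact this
          rw [hXY']
        | some β =>
          simp only [Option.elim_some]
          rw [(hall β).2.1]

end Pool.Agent.ZPT
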