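import Pool.Agent.ZPT.Cocycle

set_option autoImplicit false

/-!
The `Z_p`-Tucker lemma: an equivariant labelling of the nonzero partial `Z_p`-vectors on `N`
coordinates by pairs (index `< m`, sign) such that comparable vectors with the same index have the
same sign needs `N ≤ m`.
-/

namespace Pool.Agent.ZPT

open Finset

section homotopy

variable {A k : Type*} [CommRing k]

/-- The dual of the prism operator between the identity and `J`. -/
def Pr (J : A → A) : (List A → k) → List A → k
  | _, [] => 0
  | w, x :: l => w (x :: J x :: l.map J) - Pr J (fun l' => w (x :: l')) l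

@[simp] theorem Pr_nil (J : A → A) (w : List A → k) : Pr J w [] = 0 := by simp [Pr]

theorem Pr_cons (J : A → A) (w : List A → k) (x : A) (l : List A) :
    Pr J w (x :: l) = w (x :: J x :: l.map J) - Pr J (fun l' => w (x :: l')) l := by simp [Pr]

theorem Pr_sub (J : A → A) (l : List A) : ∀ w w' : List A → k,
    Pr J (fun l' => w l' - w' l') l = Pr J w l - Pr J w' l := by
  induction l with
  | nil => intro w w'; simp
  | cons x l ih =>
    intro w w'
    rw [Pr_cons, Pr_cons, Pr_cons, ih (fun l' => w (x :: l')) (fun l' => w' (x :: l'))]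
    ring

theorem Pr_D (J : A → A) (l : List A) : ∀ ψ : List A → k,
    Pr J (D ψ) l = ψ (l.map J) - ψ l - D (Pr J ψ) l := by
  induction l with
  | nil => intro ψ; simp
  | cons x l ih =>
    intro ψ
    have h1 : (fun l' => D ψ (x :: l')) = fun l' => ψ l' - D (fun l'' => ψ (x :: l'')) l' := by
      funext l'
      exact D_cons ψ x l'
    have h2 : (fun l' => Pr J ψ (x :: l')) = fun l' => ψ (x :: J x :: l'.map J) -
        Pr J (fun l'' => ψ (x :: l'')) l' := by
      funext l'
      exact Pr_cons J ψ x l'
    have h3 := D_map J l (fun l' => ψ (x :: J x :: l'))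
    rw [Pr_cons, h1, Pr_sub J l ψ (D fun l'' => ψ (x :: l'')), ih (fun l'' => ψ (x :: l'')),
      D_cons, D_cons, D_cons (Pr J ψ) x l, h2,
      D_sub l (fun l' => ψ (x :: J x :: l'.map J)) (Pr J fun l'' => ψ (x :: l'')), h3,
      List.map_cons]
    ring

/-- The dual of the contraction. -/
def H (J : A → A) (e : A) (w : List A → k) (l : List A) : k := w (e :: l.map J) - Pr J w l

theorem H_sub (J : A → A) (e : A) (w w' : List A → k) (l : List A) :
    H J e (fun l' => w l' - w' l') l = H J e w l - H J e w' l := by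
  rw [H, H, H, Pr_sub]
  ring

theorem H_D (J : A → A) (e : A) (ψ : List A → k) (l : List A) :
    H J e (D ψ) l = ψ l - D (H J e ψ) l := by
  have h1 : (H J e ψ) = fun l' => ψ (e :: l'.map J) - Pr J ψ l' := rfl
  have h2 := D_map J l (fun l' => ψ (e :: l'))
  rw [H, Pr_D, D_cons, h1, D_sub l (fun l' => ψ (e :: l'.map J)) (Pr J ψ), h2]
  ring

end homotopy

variable {p : ℕ} [hp : Fact p.Prime]

/-- Partial vectors. -/
abbrev PV (p : ℕ) := ℕ → Option (ZMod p)

/-- The action on partial vectors. -/
def shf (c : ZMod p) (X : PV p) : PV p := fun j => (X j).map (· + c)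

/-- `Y` extends `X`. -/
def Le (X Y : PV p) : Prop := ∀ j, X j ≠ none → Y j = X j

/-- The unit vector. -/
def ee (i : ℕ) : PV p := Function.update (fun _ => none) i (some 0)

/-- Join with the unit vector. -/
def JJ (i : ℕ) (X : PV p) : PV p := Function.update X i (some 0)

theorem shf_shf (c d : ZMod p) (X : PV p) : shf c (shf d X) = shf (d + c) X := by
  funext j
  simp only [shf]
  cases X j with
  | none => rfl
  | some a => simp [add_assoc]

theorem map_shf_shf (c d : ZMod p) (l : List (PV p)) :
    (l.map (shf d)).map (shf c) = l.map (shf (d + c)) := by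
  rw [List.map_map]
  congr 1
  funext X
  exact shf_shf c d X

omit hp in
theorem Le.refl (X : PV p) : Le X X := fun _ _ => rfl

omit hp in
theorem Le.trans {X Y Z : PV p} (h1 : Le X Y) (h2 : Le Y Z) : Le X Z := by
  intro j hj
  rw [← h1 j hj]
  exact h2 j (by rw [h1 j hj]; exact hj)

theorem Le.shf {X Y : PV p} (h : Le X Y) (c : ZMod p) : Le (shf c X) (shf c Y) := by
  intro j hj
  have h1 : X j ≠ none := by
    intro h2
    apply hj
    simp [ZPT.shf, h2]
  simp only [ZPT.shf]
  rw [h j h1]

/-- The alternating operators. -/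
noncomputable def theta (i : ℕ) (w : List (PV p) → ZMod p) (l : List (PV p)) : ZMod p :=
  if Even i then w (l.map (shf 1)) - w l else ∑ c, w (l.map (shf c))

/-- Evaluation on the fundamental chains. -/
noncomputable def E : ℕ → (List (PV p) → ZMod p) → ZMod p
  | 0, w => w [ee 0]
  | i + 1, w => E i (theta i (H (JJ (i + 1)) (ee (i + 1)) w))

theorem theta_sub (i : ℕ) (w w' : List (PV p) → ZMod p) (l : List (PV p)) :
    theta i (fun l' => w l' - w' l') l = theta i w l - theta i w' l := by
  unfold theta
  split_ifs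
  · ring
  · rw [Finset.sum_sub_distrib]

theorem E_sub (i : ℕ) : ∀ w w' : List (PV p) → ZMod p,
    E i (fun l => w l - w' l) = E i w - E i w' := by
  induction i with
  | zero => intro w w'; rfl
  | succ i ih =>
    intro w w'
    rw [E, E, E, ← ih]
    congr 1
    funext l
    rw [← theta_sub]
    congr 1
    funext l'
    exact H_sub _ _ _ _ _

theorem E_zero (i : ℕ) : E i (fun _ : List (PV p) => (0 : ZMod p)) = 0 := by
  have h := E_sub i (fun _ : List (PV p) => (0 : ZMod p)) (fun _ => 0)
  simp only [sub_self] at h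
  exact h

theorem theta_D (i : ℕ) (ψ : List (PV p) → ZMod p) (l : List (PV p)) :
    theta i (D ψ) l = D (theta i ψ) l := by
  have h : ∀ c : ZMod p, D ψ (l.map (shf c)) = D (fun l' => ψ (l'.map (shf c))) l :=
    fun c => D_map _ _ _
  by_cases hi : Even i
  · have h2 : theta i ψ = fun l' => ψ (l'.map (shf 1)) - ψ l' := by
      funext l'
      simp [theta, hi]
    rw [h2, D_sub l (fun l' => ψ (l'.map (shf 1))) ψ, ← h]
    simp [theta, hi]
  · have h2 : theta i ψ = fun l' => ∑ c, ψ (l'.map (shf c)) := by
      funext l'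
      simp [theta, hi]
    rw [h2, D_sum]
    simp only [theta, if_neg hi]
    exact Finset.sum_congr rfl fun c _ => h c

theorem theta_theta (i : ℕ) (φ : List (PV p) → ZMod p) (l : List (PV p)) :
    theta i (theta (i + 1) φ) l = 0 := by
  have h0 : ∀ F : ZMod p → ZMod p, ∑ c, F (1 + c) = ∑ c, F c := fun F =>
    Fintype.sum_equiv (Equiv.addLeft 1) _ _ fun c => rfl
  have h1 : ∀ F : ZMod p → ZMod p, ∑ c, F (c + 1) = ∑ c, F c := fun F =>
    Fintype.sum_equiv (Equiv.addRight 1) _ _ fun c => rfl
  by_cases hi : Even i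
  · have hi' : ¬ Even (i + 1) := by rw [Nat.even_add_one]; simpa using hi
    simp only [theta, if_pos hi, if_neg hi', map_shf_shf]
    rw [h0 fun c => φ (l.map (shf c)), sub_self]
  · have hi' : Even (i + 1) := Nat.even_add_one.2 hi
    simp only [theta, if_neg hi, if_pos hi', map_shf_shf]
    rw [Finset.sum_sub_distrib, h1 fun c => φ (l.map (shf c)), sub_self]

theorem E_step (i : ℕ) (hZ : ∀ φ : List (PV p) → ZMod p, E i (D (theta i φ)) = 0)
    (ψ : List (PV p) → ZMod p) : E (i + 1) (D ψ) = E i (theta i ψ) := by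
  rw [E]
  have h1 : theta i (H (JJ (i + 1)) (ee (i + 1)) (D ψ)) = fun l => theta i ψ l -
      D (theta i (H (JJ (i + 1)) (ee (i + 1)) ψ)) l := by
    funext l
    have h2 : H (JJ (i + 1)) (ee (i + 1)) (D ψ) = fun l' => ψ l' -
        D (H (JJ (i + 1)) (ee (i + 1)) ψ) l' := by
      funext l'
      exact H_D _ _ _ _
    rw [h2, theta_sub i ψ (D (H (JJ (i + 1)) (ee (i + 1)) ψ)), theta_D]
  rw [h1, E_sub i (theta i ψ) (D (theta i (H (JJ (i + 1)) (ee (i + 1)) ψ))), hZ, sub_zero]

theorem E_D_theta (i : ℕ) : ∀ φ : List (PV p) → ZMod p, E i (D (theta i φ)) = 0 := by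
  induction i with
  | zero =>
    intro φ
    rw [E, D_cons, D_nil, sub_zero]
    simp [theta]
  | succ i ih =>
    intro φ
    rw [E_step i ih]
    have h : theta i (theta (i + 1) φ) = fun _ => 0 := by
      funext l
      exact theta_theta i φ l
    rw [h, E_zero]

theorem E_D (i : ℕ) (ψ : List (PV p) → ZMod p) : E (i + 1) (D ψ) = E i (theta i ψ) :=
  E_step i (E_D_theta i) ψ

/-- Admissible lists: chains of nonzero vectors on the coordinates `≤ i`. -/
def Adm (i : ℕ) (l : List (PV p)) : Prop :=
  l.length = i + 1 ∧ l.Pairwise Le ∧ ∀ X ∈ l, X ≠ (fun _ => none) ∧ ∀ j, i < j → X j = none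

theorem Adm.map {i : ℕ} {l : List (PV p)} (h : Adm i l) (c : ZMod p) : Adm i (l.map (shf c)) := by
  refine ⟨by rw [List.length_map]; exact h.1, ?_, ?_⟩
  · rw [List.pairwise_map]
    exact h.2.1.imp fun hab => hab.shf c
  · intro X hX
    obtain ⟨Y, hY, rfl⟩ := List.mem_map.1 hX
    obtain ⟨h1, h2⟩ := h.2.2 Y hY
    constructor
    · intro h3
      apply h1
      funext j
      have h4 := congrFun h3 j
      simp only [shf, Option.map_eq_none_iff] at h4
      exact h4
    · intro j hj
      simp [shf, h2 j hj]

theorem Le_JJ {i : ℕ} {X : PV p} (h : X (i + 1) = none) : Le X (JJ (i + 1) X) := by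
  intro j hj
  have hne : j ≠ i + 1 := fun e => hj (e ▸ h)
  simp [JJ, Function.update_of_ne hne]

theorem JJ_mono {i : ℕ} {X Y : PV p} (h : Le X Y) : Le (JJ i X) (JJ i Y) := by
  intro j hj
  by_cases hne : j = i
  · subst hne
    simp [JJ]
  · simp only [JJ, Function.update_of_ne hne] at hj ⊢
    exact h j hj

theorem ee_Le {i : ℕ} (X : PV p) : Le (ee i) (JJ i X) := by
  intro j hj
  by_cases hne : j = i
  · subst hne
    simp [JJ, ee]
  · exact absurd (by simp [ee, Function.update_of_ne hne]) hj

theorem JJ_ne {i : ℕ} (X : PV p) : JJ i X ≠ (fun _ => none) := by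
  intro h
  have := congrFun h i
  simp [JJ] at this

theorem JJ_supp {i : ℕ} {X : PV p} (h : ∀ j, i < j → X j = none) (j : ℕ) (hj : i + 1 < j) :
    JJ (i + 1) X j = none := by
  rw [JJ, Function.update_of_ne (by omega)]
  exact h j (by omega)

omit hp in
theorem Pr_congr (J : PV p → PV p) (l : List (PV p)) : ∀ w w' : List (PV p) → ZMod p,
    (∀ u x v, l = u ++ x :: v → w (u ++ x :: J x :: v.map J) = w' (u ++ x :: J x :: v.map J)) →
    Pr J w l = Pr J w' l := by
  induction l with
  | nil => intro w w' _; simp
  | cons x l ih =>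
    intro w w' h
    have h0 := h [] x l rfl
    simp only [List.nil_append] at h0
    rw [Pr_cons, Pr_cons, h0]
    rw [ih (fun l' => w (x :: l')) (fun l' => w' (x :: l')) fun u y v huv => ?_]
    exact h (x :: u) y v (by rw [huv]; rfl)

theorem H_congr {i : ℕ} {w w' : List (PV p) → ZMod p} (h : ∀ l, Adm (i + 1) l → w l = w' l)
    {l : List (PV p)} (hl : Adm i l) :
    H (JJ (i + 1)) (ee (i + 1)) w l = H (JJ (i + 1)) (ee (i + 1)) w' l := by
  obtain ⟨hlen, hpw, hs⟩ := hl
  rw [H, H]
  congr 1
  · apply h
    refine ⟨by simp [hlen], ?_, ?_⟩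
    · rw [List.pairwise_cons]
      constructor
      · intro Y hY
        obtain ⟨X, hX, rfl⟩ := List.mem_map.1 hY
        exact ee_Le X
      · rw [List.pairwise_map]
        exact hpw.imp fun hab => JJ_mono hab
    · intro X hX
      rcases List.mem_cons.1 hX with rfl | hX
      · constructor
        · exact JJ_ne (fun _ => none)
        · intro j hj
          simp [ee, Function.update_of_ne (show j ≠ i + 1 by omega)]
      · obtain ⟨Y, hY, rfl⟩ := List.mem_map.1 hX
        exact ⟨JJ_ne Y, JJ_supp (hs Y hY).2⟩
  · apply Pr_congr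
    intro u x v huv
    apply h
    subst huv
    rw [List.pairwise_append, List.pairwise_cons] at hpw
    obtain ⟨hu, ⟨hxv, hv⟩, huxv⟩ := hpw
    have hmem : ∀ X ∈ u ++ x :: v, Le X (JJ (i + 1) X) := fun X hX => Le_JJ ((hs X hX).2 _ (by omega))
    refine ⟨?_, ?_, ?_⟩
    · simp only [List.length_append, List.length_cons, List.length_map] at hlen ⊢
      omega
    · rw [List.pairwise_append, List.pairwise_cons, List.pairwise_cons, List.pairwise_map]
      refine ⟨hu, ⟨?_, ?_, ?_⟩, ?_⟩
      · intro Y hY
        rcases List.mem_cons.1 hY with rfl | hY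
        · exact hmem x (by simp)
        · obtain ⟨Z, hZ, rfl⟩ := List.mem_map.1 hY
          exact (hxv Z hZ).trans (hmem Z (by simp [hZ]))
      · intro Y hY
        obtain ⟨Z, hZ, rfl⟩ := List.mem_map.1 hY
        exact JJ_mono (hxv Z hZ)
      · exact hv.imp fun hab => JJ_mono hab
      · intro X hX Y hY
        rcases List.mem_cons.1 hY with rfl | hY
        · exact huxv X hX _ (by simp)
        · rcases List.mem_cons.1 hY with rfl | hY
          · exact (huxv X hX x (by simp)).trans (hmem x (by simp))
          · obtain ⟨Z, hZ, rfl⟩ := List.mem_map.1 hY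
            exact (huxv X hX Z (by simp [hZ])).trans (hmem Z (by simp [hZ]))
    · intro Y hY
      rcases List.mem_append.1 hY with hY | hY
      · have := hs Y (by simp [hY])
        exact ⟨this.1, fun j hj => this.2 j (by omega)⟩
      · rcases List.mem_cons.1 hY with rfl | hY
        · have := hs Y (by simp)
          exact ⟨this.1, fun j hj => this.2 j (by omega)⟩
        · rcases List.mem_cons.1 hY with rfl | hY
          · exact ⟨JJ_ne x, JJ_supp (hs x (by simp)).2⟩
          · obtain ⟨Z, hZ, rfl⟩ := List.mem_map.1 hY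
            exact ⟨JJ_ne Z, JJ_supp (hs Z (by simp [hZ])).2⟩

theorem E_congr (i : ℕ) : ∀ w w' : List (PV p) → ZMod p, (∀ l, Adm i l → w l = w' l) →
    E i w = E i w' := by
  induction i with
  | zero =>
    intro w w' h
    refine h _ ⟨rfl, by simp, ?_⟩
    intro X hX
    rw [List.mem_singleton] at hX
    subst hX
    constructor
    · exact JJ_ne (fun _ => none)
    · intro j hj
      simp [ee, Function.update_of_ne (show j ≠ 0 by omega)]
  | succ i ih =>
    intro w w' h
    rw [E, E]
    apply ih
    intro l hl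
    unfold theta
    split_ifs
    · rw [H_congr h (hl.map 1), H_congr h hl]
    · exact Finset.sum_congr rfl fun c _ => H_congr h (hl.map c)

/-- **The `Z_p`-Tucker lemma.** -/
theorem tucker {N m : ℕ} (o : PV p → ℕ) (s : PV p → ZMod p)
    (ho : ∀ X : PV p, X ≠ (fun _ => none) → (∀ j, N ≤ j → X j = none) → o X < m)
    (hoc : ∀ X : PV p, X ≠ (fun _ => none) → (∀ j, N ≤ j → X j = none) →
      ∀ c, o (shf c X) = o X ∧ s (shf c X) = s X + c)
    (hs : ∀ X Y : PV p, X ≠ (fun _ => none) → (∀ j, N ≤ j → Y j = none) → Le X Y → o X = o Y →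
      s X = s Y) : N ≤ m := by
  by_contra hlt
  push Not at hlt
  set lam : PV p → ℕ × ZMod p := fun X => (o X, s X) with hlam
  have hgood : ∀ i, i < N → ∀ l : List (PV p), Adm i l → Good (l.map lam) := by
    intro i hi l hl a ha b hb hab
    obtain ⟨X, hX, rfl⟩ := List.mem_map.1 ha
    obtain ⟨Y, hY, rfl⟩ := List.mem_map.1 hb
    have hX' := hl.2.2 X hX
    have hY' := hl.2.2 Y hY
    simp only [hlam] at hab ⊢
    have htot : Le X Y ∨ Le Y X := by
      rcases eq_or_ne X Y with rfl | hne
      · exact Or.inl (Le.refl _)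
      · have hsym : Std.Symm (fun X Y : PV p => Le X Y ∨ Le Y X) := ⟨fun _ _ h => Or.symm h⟩
        exact List.Pairwise.forall_of_forall (R := fun X Y : PV p => Le X Y ∨ Le Y X)
          (fun X _ => Or.inl (Le.refl X)) (hl.2.1.imp fun h => Or.inl h) hX hY
    rcases htot with h | h
    · exact hs X Y hX'.1 (fun j hj => hY'.2 j (by omega)) h hab
    · exact (hs Y X hY'.1 (fun j hj => hX'.2 j (by omega)) h hab.symm).symm
  have hmap : ∀ i, i < N → ∀ l : List (PV p), Adm i l → ∀ c,
      (l.map (shf c)).map lam = (l.map lam).map (act c) := by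
    intro i hi l hl c
    rw [List.map_map, List.map_map]
    apply List.map_congr_left
    intro X hX
    have hX' := hl.2.2 X hX
    have h1 := hoc X hX'.1 (fun j hj => hX'.2 j (by omega)) c
    simp only [Function.comp, hlam, act]
    rw [h1.1, h1.2]
  have hE : ∀ i, i < N → E i (fun l => W i (l.map lam)) = 1 := by
    intro i
    induction i with
    | zero =>
      intro _
      rw [E]
      exact W_zero_single _
    | succ i ih =>
      intro hi
      have h1 : (fun l : List (PV p) => W (i + 1) (l.map lam)) =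
          D (fun l => Prim i (W i) (l.map lam)) := by
        funext l
        exact D_map lam l _
      rw [h1, E_D, ← ih (by omega)]
      apply E_congr
      intro l hl
      have hg := hgood i (by omega) l hl
      unfold theta
      split_ifs with hev
      · show Prim i (W i) ((l.map (shf 1)).map lam) - Prim i (W i) (l.map lam) = W i (l.map lam)
        rw [hmap i (by omega) l hl]
        exact prim_even hev hg (W_nil i) ((W_inv i).1 hev _ hg)
      · show ∑ c, Prim i (W i) ((l.map (shf c)).map lam) = W i (l.map lam)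
        rw [Finset.sum_congr rfl fun c _ => by rw [hmap i (by omega) l hl c]]
        exact prim_odd hev hg (W_nil i) ((W_inv i).2 hev _ hg)
  obtain ⟨n, rfl⟩ : ∃ n, N = n + 1 := ⟨N - 1, by omega⟩
  have h1 := hE n (by omega)
  have h2 : E n (fun l => W n (l.map lam)) = E n (fun _ : List (PV p) => (0 : ZMod p)) := by
    apply E_congr
    intro l hl
    apply (alt_W n).eq_zero_of_not_nodup
    intro hnd
    have hg := hgood n (by omega) l hl
    have h3 : ((l.map lam).map Prod.fst).Nodup := by
      refine hnd.map_on ?_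
      intro a ha b hb hab
      exact Prod.ext hab (hg a ha b hb hab)
    have h4 : ((l.map lam).map Prod.fst) ⊆ List.range m := by
      intro a ha
      rw [List.map_map] at ha
      obtain ⟨X, hX, rfl⟩ := List.mem_map.1 ha
      have hX' := hl.2.2 X hX
      exact List.mem_range.2 (ho X hX'.1 fun j hj => hX'.2 j (by omega))
    have h5 := (h3.subperm h4).length_le
    simp only [List.length_map, List.length_range] at h5
    have h6 := hl.1
    omega
  rw [E_zero] at h2
  rw [h2] at h1
  exact zero_ne_one h1

end Pool.Agent.ZPT
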